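import Mathlib

/-!
# Virtual knots as Gauss diagrams

An oriented virtual knot diagram, up to planar isotopy and the virtual and mixed moves (the detour
move), is the same as its Gauss diagram: an oriented circle with signed arrows, one for every
classical crossing, pointing from the over-passage (the tail) to the under-passage (the head).
A Gauss diagram is recorded by the list of the ends of its arrows which are met when running once
around the circle from a base point. The base point (move `rotate`) and the names of the arrows
(move `rename`) do not matter. The classical Reidemeister moves R1, R2, R3 are allowed in all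
oriented variants; the two forbidden moves are not allowed.
-/

set_option autoImplicit false

namespace Pool.Agent.Q125.VK

/-- An end of an arrow of a Gauss diagram: the passage through the classical crossing `name` as the
over-strand (`tail = true`, the tail of the arrow) or as the under-strand (`tail = false`, the head
of the arrow); `pos` tells whether the crossing is positive. -/
structure End where
  name : ℕ
  tail : Bool
  pos : Bool
deriving DecidableEq

namespace End

/-- The other end of the same arrow. -/
def opp (x : End) : End := ⟨x.name, !x.tail, x.pos⟩

/-- The same end with the arrow renamed. -/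
def ren (g : ℕ → ℕ) (x : End) : End := ⟨g x.name, x.tail, x.pos⟩

/-- The same passage after a crossing change: over and under are exchanged and so is the sign. -/
def switch (x : End) : End := ⟨x.name, !x.tail, !x.pos⟩

end End

/-- A list of ends is a Gauss diagram (of one closed curve) if the tail and the head of every arrow
occur exactly once, different arrows having different names. -/
def IsGauss (w : List End) : Prop :=
  (w.map fun x => (x.name, x.tail)).Nodup ∧ ∀ x ∈ w, x.opp ∈ w

/-- The adjacent pairs of ends `x, y` and `x', y'` form a bigon as in a second Reidemeister move:
they are the ends of two arrows of opposite signs pointing from the same strand to the same strand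
(the order of the two crossings along the second strand is arbitrary, the two strands being
parallel or antiparallel). -/
def Bigon (x y x' y' : End) : Prop :=
  x.tail = y.tail ∧ x.pos ≠ y.pos ∧ ((x' = x.opp ∧ y' = y.opp) ∨ (x' = y.opp ∧ y' = x.opp))

instance (x y x' y' : End) : Decidable (Bigon x y x' y') := by unfold Bigon; infer_instance

/-- The two given ends, in the given order (`true`) or in the other order (`false`). -/
def order (first : Bool) (x y : End) : End × End := if first then (x, y) else (y, x)

/-- The three pairs of adjacent ends in a third Reidemeister move with crossings `a` (top strand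
over middle strand, of sign `p`), `b` (top strand over bottom strand, of sign `q`) and `c` (middle
strand over bottom strand, of sign `r`). The side `δ` of `c` on which the top strand passes and the
signs determine the order of the crossings on the strands: `a` comes before `b` on the top strand
iff `δ` times the product of the three signs is `1`, `a` comes before `c` on the middle strand iff
`δ` times the sign of `a` is `1`, and `b` comes before `c` on the bottom strand iff `δ` times the
sign of `b` is `1`. -/
def triangle (δ : Bool) (a b c : ℕ) (p q r : Bool) : List (End × End) :=
  [order ((δ == p) == (q == r)) ⟨a, true, p⟩ ⟨b, true, q⟩,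
   order (δ == p) ⟨a, false, p⟩ ⟨c, true, r⟩,
   order (δ == q) ⟨b, false, q⟩ ⟨c, false, r⟩]

/-- The moves on Gauss diagrams of virtual knots: change of the base point, renaming of the arrows,
and the Reidemeister moves R1, R2, R3 in all variants. -/
inductive Move : List End → List End → Prop
  | rotate (A B : List End) : Move (A ++ B) (B ++ A)
  | rename (g : ℕ → ℕ) (hg : Function.Injective g) (w : List End) : Move w (w.map (End.ren g))
  | r1 (x : End) (A B : List End) : Move (A ++ x :: x.opp :: B) (A ++ B)
  | r2 (x y x' y' : End) (h : Bigon x y x' y') (A B C : List End) :
      Move (A ++ x :: y :: (B ++ x' :: y' :: C)) (A ++ (B ++ C))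
  | r3 (δ : Bool) (a b c : ℕ) (p q r : Bool) (s t u : End × End)
      (h : [s, t, u].Perm (triangle δ a b c p q r)) (A B C D : List End) :
      Move (A ++ s.1 :: s.2 :: (B ++ t.1 :: t.2 :: (C ++ u.1 :: u.2 :: D)))
        (A ++ s.2 :: s.1 :: (B ++ t.2 :: t.1 :: (C ++ u.2 :: u.1 :: D)))

/-- Gauss diagrams. -/
abbrev Diagram : Type := {w : List End // IsGauss w}

/-- Virtual knots: Gauss diagrams modulo the moves. -/
def VirtualKnot : Type := Quot fun v w : Diagram => Move v.1 w.1

/-- The virtual knot of a diagram. -/
def knot (D : Diagram) : VirtualKnot := Quot.mk _ D

theorem isGauss_nil : IsGauss [] := ⟨by simp, by simp⟩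

/-- The unknot: the diagram without crossings. -/
def unknot : VirtualKnot := knot ⟨[], isGauss_nil⟩

/-- The names of the classical crossings of a diagram. -/
def crossings (w : List End) : Finset ℕ := (w.map End.name).toFinset

/-- The crossings in `S` are changed. -/
def change (S : Finset ℕ) (w : List End) : List End :=
  w.map fun x => if x.name ∈ S then x.switch else x

/-- The crossings in `S` are made virtual: their arrows are deleted from the Gauss diagram. -/
def virtualize (S : Finset ℕ) (w : List End) : List End :=
  w.filter fun x => x.name ∉ S

theorem isGauss_change (S : Finset ℕ) {w : List End} (h : IsGauss w) : IsGauss (change S w) := by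
  obtain ⟨h1, h2⟩ := h
  have hinj1 := List.inj_on_of_nodup_map h1
  have key : (List.map (fun x : End => (x.name, x.tail)) (change S w)).Nodup := by
    unfold change
    rw [List.map_map]
    refine (List.nodup_map_iff_inj_on (List.Nodup.of_map _ h1)).2 ?_
    intro x hx y hy hxy
    apply hinj1 hx hy
    by_cases hxS : x.name ∈ S <;> by_cases hyS : y.name ∈ S <;>
      simp_all [End.switch, Prod.ext_iff]
  refine ⟨key, ?_⟩
  intro y hy
  unfold change at hy ⊢
  rw [List.mem_map] at hy ⊢
  obtain ⟨x, hx, rfl⟩ := hy
  refine ⟨x.opp, h2 x hx, ?_⟩
  by_cases hxS : x.name ∈ S <;> simp [End.opp, End.switch, hxS]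

theorem isGauss_virtualize (S : Finset ℕ) {w : List End} (h : IsGauss w) :
    IsGauss (virtualize S w) := by
  obtain ⟨h1, h2⟩ := h
  refine ⟨h1.sublist (List.Sublist.map _ List.filter_sublist), ?_⟩
  intro x hx
  unfold virtualize at hx ⊢
  rw [List.mem_filter] at hx ⊢
  exact ⟨h2 x hx.1, hx.2⟩

/-- The diagram obtained by changing the crossings in `S`. -/
def Diagram.change (D : Diagram) (S : Finset ℕ) : Diagram :=
  ⟨VK.change S D.1, isGauss_change S D.2⟩

/-- The diagram obtained by virtualizing the crossings in `S`. -/
def Diagram.virtualize (D : Diagram) (S : Finset ℕ) : Diagram :=
  ⟨VK.virtualize S D.1, isGauss_virtualize S D.2⟩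

end Pool.Agent.Q125.VK
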