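import Mathlib
import Pool.Agent.Q125.VK.Defs

/-!
# Gauss diagrams: equivalence, removal moves, words with holes
-/

set_option autoImplicit false

namespace Pool.Agent.Q125.VK

open List (replicate)

@[simp] theorem End.opp_opp (x : End) : x.opp.opp = x := by cases x; simp [End.opp]

@[simp] theorem End.opp_name (x : End) : x.opp.name = x.name := rfl

@[simp] theorem End.ren_name (g : ℕ → ℕ) (x : End) : (x.ren g).name = g x.name := rfl

theorem End.opp_ren (g : ℕ → ℕ) (x : End) : (x.ren g).opp = x.opp.ren g := rfl

theorem End.switch_ren (g : ℕ → ℕ) (x : End) : (x.ren g).switch = x.switch.ren g := rfl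

theorem IsGauss.perm {v w : List End} (h : IsGauss v) (p : v.Perm w) : IsGauss w :=
  ⟨(p.map _).nodup_iff.1 h.1, fun x hx => p.mem_iff.1 (h.2 x (p.mem_iff.2 hx))⟩

theorem IsGauss.eq_of_key {w : List End} (h : IsGauss w) {x y : End} (hx : x ∈ w) (hy : y ∈ w)
    (h1 : x.name = y.name) (h2 : x.tail = y.tail) : x = y :=
  List.inj_on_of_nodup_map h.1 hx hy (by simp [h1, h2])

theorem IsGauss.tail_pair {x : End} {w : List End} (h : IsGauss (x :: x.opp :: w)) :
    IsGauss w := by
  obtain ⟨h1, h2⟩ := h
  have h1' := h1
  simp only [List.map_cons, List.nodup_cons, List.mem_cons, not_or] at h1'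
  obtain ⟨⟨-, h3⟩, h4, h5⟩ := h1'
  refine ⟨h5, fun z hz => ?_⟩
  have := h2 z (by simp [hz])
  simp only [List.mem_cons] at this
  rcases this with h | h | h
  · exfalso; apply h4
    have : z = x.opp := by rw [← h]; simp
    rw [← this]; exact List.mem_map_of_mem hz
  · exfalso; apply h3
    have : z = x := by rw [← End.opp_opp z, h]; simp
    rw [← this]; exact List.mem_map_of_mem hz
  · exact h

theorem IsGauss.add_pair {x : End} {w : List End} (h : IsGauss w)
    (hx : ∀ z ∈ w, z.name ≠ x.name) : IsGauss (x :: x.opp :: w) := by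
  obtain ⟨h1, h2⟩ := h
  refine ⟨?_, ?_⟩
  · simp only [List.map_cons, List.nodup_cons, List.mem_cons, not_or, List.mem_map, not_exists,
      not_and]
    refine ⟨⟨?_, ?_⟩, ?_, h1⟩
    · simp [End.opp]
    · intro z hz hzx
      exact hx z hz (by simpa using congrArg Prod.fst hzx)
    · intro z hz hzx
      exact hx z hz (by simpa using congrArg Prod.fst hzx)
  · intro z hz
    simp only [List.mem_cons] at hz ⊢
    rcases hz with rfl | rfl | hz
    · simp
    · simp
    · exact Or.inr (Or.inr (h2 z hz))

theorem IsGauss.ren {g : ℕ → ℕ} (hg : Function.Injective g) {w : List End} (h : IsGauss w) :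
    IsGauss (w.map (End.ren g)) := by
  obtain ⟨h1, h2⟩ := h
  refine ⟨?_, ?_⟩
  · rw [List.map_map]
    refine (List.nodup_map_iff_inj_on (List.Nodup.of_map _ h1)).2 ?_
    intro x hx y hy hxy
    apply List.inj_on_of_nodup_map h1 hx hy
    simp only [Function.comp_apply, End.ren, Prod.mk.injEq] at hxy ⊢
    exact ⟨hg hxy.1, hxy.2⟩
  · intro y hy
    rw [List.mem_map] at hy ⊢
    obtain ⟨x, hx, rfl⟩ := hy
    exact ⟨x.opp, h2 x hx, rfl⟩

/-- One move between Gauss diagrams. -/
def Step (v w : List End) : Prop := IsGauss v ∧ IsGauss w ∧ Move v w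

/-- Equivalence of Gauss diagrams. -/
def VEq (v w : List End) : Prop := Relation.EqvGen Step v w

theorem VEq.refl (v : List End) : VEq v v := Relation.EqvGen.refl v
theorem VEq.symm {v w : List End} (h : VEq v w) : VEq w v := Relation.EqvGen.symm _ _ h
theorem VEq.trans {u v w : List End} (h : VEq u v) (h' : VEq v w) : VEq u w :=
  Relation.EqvGen.trans _ _ _ h h'

theorem VEq.of {v w : List End} (hv : IsGauss v) (hw : IsGauss w) (h : Move v w) : VEq v w :=
  Relation.EqvGen.rel _ _ ⟨hv, hw, h⟩

theorem VEq.gauss_iff {v w : List End} (h : VEq v w) : IsGauss v ↔ IsGauss w := by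
  induction h with
  | rel _ _ h => exact ⟨fun _ => h.2.1, fun _ => h.1⟩
  | refl _ => rfl
  | symm _ _ _ ih => exact ih.symm
  | trans _ _ _ _ _ ih1 ih2 => exact ih1.trans ih2

theorem veq_of_eqvGen {x y : Diagram}
    (h : Relation.EqvGen (fun v w : Diagram => Move v.1 w.1) x y) : VEq x.1 y.1 := by
  induction h with
  | rel x y h => exact VEq.of x.2 y.2 h
  | refl x => exact VEq.refl _
  | symm x y _ ih => exact ih.symm
  | trans x y z _ _ ih1 ih2 => exact ih1.trans ih2

theorem knot_eq_iff (D D' : Diagram) : knot D = knot D' ↔ VEq D.1 D'.1 := by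
  constructor
  · intro h
    exact veq_of_eqvGen (Quot.eqvGen_exact h)
  · obtain ⟨v, hv⟩ := D
    obtain ⟨w, hw⟩ := D'
    intro h
    change VEq v w at h
    induction h with
    | rel x y h => exact Quot.sound h.2.2
    | refl x => rfl
    | symm x y _ ih => exact (ih hw hv).symm
    | trans x y z h1 h2 ih1 ih2 =>
      have hy : IsGauss y := (VEq.gauss_iff h1).1 hv
      exact (ih1 hv hy).trans (ih2 hy hw)

/-- Removal moves and rotation. -/
inductive Down : List End → List End → Prop
  | rot (A B : List End) : Down (A ++ B) (B ++ A)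
  | r1 (x : End) (A B : List End) : Down (A ++ x :: x.opp :: B) (A ++ B)
  | r2 (x y x' y' : End) (h : Bigon x y x' y') (A B C : List End) :
      Down (A ++ x :: y :: (B ++ x' :: y' :: C)) (A ++ (B ++ C))

theorem Down.move {v w : List End} (h : Down v w) : Move v w := by
  cases h with
  | rot A B => exact Move.rotate A B
  | r1 x A B => exact Move.r1 x A B
  | r2 x y x' y' h A B C => exact Move.r2 x y x' y' h A B C

theorem perm_r1 (x : End) (A B : List End) :
    (A ++ x :: x.opp :: B).Perm (x :: x.opp :: (A ++ B)) := by
  refine List.perm_middle.trans ?_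
  exact List.Perm.cons _ List.perm_middle

theorem perm_two {α : Type} (x y : α) (A B : List α) :
    (A ++ x :: y :: B).Perm (x :: y :: (A ++ B)) := by
  refine List.perm_middle.trans ?_
  exact List.Perm.cons _ List.perm_middle

theorem perm_r2 {x y x' y' : End} (h : Bigon x y x' y') (A B C : List End) :
    (A ++ x :: y :: (B ++ x' :: y' :: C)).Perm
      (x :: x.opp :: (y :: y.opp :: (A ++ (B ++ C)))) := by
  have h1 : (A ++ x :: y :: (B ++ x' :: y' :: C)).Perm
      (x :: y :: x' :: y' :: (A ++ (B ++ C))) := by
    refine (perm_two x y A _).trans ?_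
    refine List.Perm.cons _ (List.Perm.cons _ ?_)
    refine (List.Perm.append_left A (perm_two x' y' B C)).trans ?_
    exact perm_two x' y' A _
  refine h1.trans ?_
  rcases h.2.2 with ⟨rfl, rfl⟩ | ⟨rfl, rfl⟩
  · exact List.Perm.cons _ (List.Perm.swap _ _ _)
  · refine List.Perm.cons _ ?_
    refine List.Perm.trans ?_ (List.Perm.swap _ _ _)
    exact List.Perm.cons _ (List.Perm.swap _ _ _)

theorem Down.gauss {v w : List End} (h : Down v w) (hv : IsGauss v) : IsGauss w := by
  cases h with
  | rot A B => exact hv.perm List.perm_append_comm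
  | r1 x A B => exact (hv.perm (perm_r1 x A B)).tail_pair
  | r2 x y x' y' h A B C => exact (hv.perm (perm_r2 h A B C)).tail_pair.tail_pair

theorem down_star {v w : List End} (h : Relation.ReflTransGen Down v w) (hv : IsGauss v) :
    VEq v w ∧ IsGauss w := by
  induction h with
  | refl => exact ⟨VEq.refl _, hv⟩
  | tail _ h ih =>
    have hw := h.gauss ih.2
    exact ⟨ih.1.trans (VEq.of ih.2 hw h.move), hw⟩

/-! ## Words with holes -/

/-- A word in ends with holes `none` is vanishing if all its ends can be removed by rotations and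
by first and second Reidemeister moves whose pairs of neighbours are adjacent, holes being
obstacles. -/
inductive Van : List (Option End) → Prop
  | holes (n : ℕ) : Van (replicate n none)
  | rot (A B : List (Option End)) : Van (A ++ B) → Van (B ++ A)
  | r1 (x : End) (A B : List (Option End)) : Van (A ++ B) → Van (A ++ some x :: some x.opp :: B)
  | r2 (x y x' y' : End) (h : Bigon x y x' y') (A B C : List (Option End)) :
      Van (A ++ (B ++ C)) → Van (A ++ some x :: some y :: (B ++ some x' :: some y' :: C))

/-- `Fill f V a b`: the word `a` is obtained from `V` by filling words into the holes, and `b` is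
the product of these words. -/
inductive Fill {α : Type} (f : End → α) : List (Option End) → List α → List α → Prop
  | nil : Fill f [] [] []
  | junk (x : End) (V : List (Option End)) (a b : List α) :
      Fill f V a b → Fill f (some x :: V) (f x :: a) b
  | hole (c : List α) (V : List (Option End)) (a b : List α) :
      Fill f V a b → Fill f (none :: V) (c ++ a) (c ++ b)

variable {α : Type} {f : End → α}

theorem Fill.append {U V : List (Option End)} {a b a' b' : List α} (h : Fill f U a b)
    (h' : Fill f V a' b') : Fill f (U ++ V) (a ++ a') (b ++ b') := by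
  induction h with
  | nil => simpa using h'
  | junk x V a b _ ih => exact Fill.junk _ _ _ _ ih
  | hole c V a b _ ih =>
    have := Fill.hole c _ _ _ ih
    simpa [List.append_assoc] using this

theorem Fill.append_inv {U V : List (Option End)} {a b : List α} (h : Fill f (U ++ V) a b) :
    ∃ a1 a2 b1 b2, a = a1 ++ a2 ∧ b = b1 ++ b2 ∧ Fill f U a1 b1 ∧ Fill f V a2 b2 := by
  induction U generalizing a b with
  | nil => exact ⟨[], a, [], b, rfl, rfl, Fill.nil, h⟩
  | cons z U ih =>
    rw [List.cons_append] at h
    cases h with
    | junk x V a b h =>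
      obtain ⟨a1, a2, b1, b2, rfl, rfl, h1, h2⟩ := ih h
      exact ⟨f x :: a1, a2, b1, b2, rfl, rfl, Fill.junk _ _ _ _ h1, h2⟩
    | hole c V a b h =>
      obtain ⟨a1, a2, b1, b2, rfl, rfl, h1, h2⟩ := ih h
      exact ⟨c ++ a1, a2, c ++ b1, b2, by simp, by simp, Fill.hole _ _ _ _ h1, h2⟩

theorem Fill.holes_eq {n : ℕ} {a b : List α} (h : Fill f (replicate n none) a b) : a = b := by
  induction n generalizing a b with
  | zero => cases h; rfl
  | succ n ih =>
    rw [List.replicate_succ] at h
    cases h with
    | hole c V a b h => rw [ih h]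

theorem Fill.single (c : List α) : Fill f [none] c c := by
  have := Fill.hole (f := f) c [] [] [] Fill.nil
  simpa using this

theorem Fill.self (V : List (Option End)) : ∃ n, Fill some V V (replicate n none) := by
  induction V with
  | nil => exact ⟨0, Fill.nil⟩
  | cons z V ih =>
    obtain ⟨n, ih⟩ := ih
    cases z with
    | none => exact ⟨n + 1, by simpa [List.replicate_succ] using Fill.hole [none] _ _ _ ih⟩
    | some x => exact ⟨n, Fill.junk _ _ _ _ ih⟩

theorem Van.fill {V : List (Option End)} (h : Van V) :
    ∀ a b, Fill some V a b → Van b → Van a := by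
  induction h with
  | holes n => intro a b h hb; rw [h.holes_eq]; exact hb
  | rot A B _ ih =>
    intro a b h hb
    obtain ⟨a1, a2, b1, b2, rfl, rfl, h1, h2⟩ := h.append_inv
    exact Van.rot _ _ (ih _ _ (h2.append h1) (Van.rot _ _ hb))
  | r1 x A B _ ih =>
    intro a b h hb
    obtain ⟨a1, a2, b1, b2, rfl, rfl, h1, h2⟩ := h.append_inv
    cases h2 with
    | junk _ _ a2 _ h2 =>
      cases h2 with
      | junk _ _ a2 _ h2 => exact Van.r1 _ _ _ (ih _ _ (h1.append h2) hb)
  | r2 x y x' y' hB A B C _ ih =>
    intro a b h hb
    obtain ⟨a1, a2, b1, b2, rfl, rfl, h1, h2⟩ := h.append_inv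
    cases h2 with
    | junk _ _ a2 _ h2 =>
      cases h2 with
      | junk _ _ a2 _ h2 =>
        obtain ⟨a4, a5, b4, b5, rfl, rfl, h4, h5⟩ := h2.append_inv
        cases h5 with
        | junk _ _ a6 _ h6 =>
          cases h6 with
          | junk _ _ a7 _ h7 =>
            exact Van.r2 _ _ _ _ hB _ _ _ (ih _ _ (h1.append (h4.append h7)) hb)

theorem Van.down {V : List (Option End)} (h : Van V) :
    ∀ a b, Fill id V a b → Relation.ReflTransGen Down a b := by
  induction h with
  | holes n => intro a b h; rw [h.holes_eq]
  | rot A B _ ih =>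
    intro a b h
    obtain ⟨a1, a2, b1, b2, rfl, rfl, h1, h2⟩ := h.append_inv
    exact ((Relation.ReflTransGen.single (Down.rot a1 a2)).trans (ih _ _ (h2.append h1))).trans
      (Relation.ReflTransGen.single (Down.rot b2 b1))
  | r1 x A B _ ih =>
    intro a b h
    obtain ⟨a1, a2, b1, b2, rfl, rfl, h1, h2⟩ := h.append_inv
    cases h2 with
    | junk _ _ a2 _ h2 =>
      cases h2 with
      | junk _ _ a2 _ h2 =>
        exact (Relation.ReflTransGen.single (Down.r1 _ _ _)).trans (ih _ _ (h1.append h2))
  | r2 x y x' y' hB A B C _ ih =>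
    intro a b h
    obtain ⟨a1, a2, b1, b2, rfl, rfl, h1, h2⟩ := h.append_inv
    cases h2 with
    | junk _ _ a2 _ h2 =>
      cases h2 with
      | junk _ _ a2 _ h2 =>
        obtain ⟨a4, a5, b4, b5, rfl, rfl, h4, h5⟩ := h2.append_inv
        cases h5 with
        | junk _ _ a6 _ h6 =>
          cases h6 with
          | junk _ _ a7 _ h7 =>
            exact (Relation.ReflTransGen.single (Down.r2 _ _ _ _ hB _ _ _)).trans
              (ih _ _ (h1.append (h4.append h7)))

theorem Van.ren (g : ℕ → ℕ) {V : List (Option End)} (h : Van V) :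
    Van (V.map (Option.map (End.ren g))) := by
  induction h with
  | holes n => simpa using Van.holes n
  | rot A B _ ih =>
    rw [List.map_append] at ih ⊢
    exact Van.rot _ _ ih
  | r1 x A B _ ih =>
    rw [List.map_append] at ih ⊢
    exact Van.r1 (x.ren g) _ _ ih
  | r2 x y x' y' hB A B C _ ih =>
    rw [List.map_append, List.map_append] at ih
    rw [List.map_append, List.map_cons, List.map_cons, List.map_append, List.map_cons,
      List.map_cons]
    refine Van.r2 (x.ren g) (y.ren g) (x'.ren g) (y'.ren g) ?_ _ _ _ ih
    refine ⟨hB.1, hB.2.1, ?_⟩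
    rcases hB.2.2 with ⟨rfl, rfl⟩ | ⟨rfl, rfl⟩
    · exact Or.inl ⟨rfl, rfl⟩
    · exact Or.inr ⟨rfl, rfl⟩

/-! ## A checker -/

/-- Auxiliary function for `sub`. -/
def sub1 (x y : End) (z : Option End) (L : List (Option End)) : List (List (Option End)) :=
  match z, L with
  | some x', some y' :: C => if Bigon x y x' y' then [C] else []
  | _, _ => []

/-- The words obtained from `L` by removing adjacent ends `x', y'` which form a bigon with
`x, y`. -/
def sub (x y : End) : List (Option End) → List (List (Option End))
  | [] => []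
  | z :: L => sub1 x y z L ++ (sub x y L).map (z :: ·)

theorem sub_sound (x y : End) : ∀ (L L' : List (Option End)), L' ∈ sub x y L →
    ∃ B C x' y', Bigon x y x' y' ∧ L = B ++ some x' :: some y' :: C ∧ L' = B ++ C := by
  intro L
  induction L with
  | nil => intro L' h; simp [sub] at h
  | cons z L ih =>
    intro L' h
    rw [sub, List.mem_append] at h
    rcases h with h | h
    · unfold sub1 at h
      split at h
      · rename_i x' y' C
        split_ifs at h with hB
        · simp only [List.mem_singleton] at h
          exact ⟨[], C, x', y', hB, rfl, h⟩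
        · simp at h
      · simp at h
    · rw [List.mem_map] at h
      obtain ⟨M, hM, rfl⟩ := h
      obtain ⟨B, C, x', y', hB, rfl, rfl⟩ := ih M hM
      exact ⟨z :: B, C, x', y', hB, rfl, rfl⟩

/-- Auxiliary function for `red`. -/
def red1 (z : Option End) (L : List (Option End)) : List (List (Option End)) :=
  match z, L with
  | some x, some y :: M => sub x y M
  | _, _ => []

/-- The words obtained from `V` by removing a bigon. -/
def red : List (Option End) → List (List (Option End))
  | [] => []
  | z :: L => red1 z L ++ (red L).map (z :: ·)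

theorem red_sound : ∀ (V A V' : List (Option End)), V' ∈ red V → Van (A ++ V') → Van (A ++ V) := by
  intro V
  induction V with
  | nil => intro A V' h; simp [red] at h
  | cons z L ih =>
    intro A V' h hV
    rw [red, List.mem_append] at h
    rcases h with h | h
    · unfold red1 at h
      split at h
      · rename_i x y M
        obtain ⟨B, C, x', y', hB, rfl, rfl⟩ := sub_sound _ _ _ _ h
        exact Van.r2 _ _ _ _ hB _ _ _ hV
      · simp at h
    · rw [List.mem_map] at h
      obtain ⟨M, hM, rfl⟩ := h
      have := ih (A ++ [z]) M hM (by simpa using hV)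
      simpa using this

/-- Search for a sequence of bigons. -/
def check : ℕ → List (Option End) → Bool
  | 0, V => V.all fun z => z.isNone
  | n + 1, V => (V.all fun z => z.isNone) || (red V).any (check n)

theorem van_of_all {V : List (Option End)} (h : (V.all fun z => z.isNone) = true) : Van V := by
  have : V = replicate V.length none := by
    rw [List.eq_replicate_iff]
    refine ⟨rfl, fun z hz => ?_⟩
    rw [List.all_eq_true] at h
    simpa using h z hz
  rw [this]; exact Van.holes _

theorem check_sound : ∀ (n : ℕ) (V : List (Option End)), check n V = true → Van V := by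
  intro n
  induction n with
  | zero => intro V h; exact van_of_all h
  | succ n ih =>
    intro V h
    rw [check, Bool.or_eq_true] at h
    rcases h with h | h
    · exact van_of_all h
    · rw [List.any_eq_true] at h
      obtain ⟨V', h1, h2⟩ := h
      exact red_sound V [] V' h1 (ih V' h2)

end Pool.Agent.Q125.VK
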