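import Mathlib
import Pool.Agent.Q125.VK.Basic

/-!
# Lifting isotopies

`Rep op D E S w`: the diagram `D` is equivalent to a diagram `dg w` some of whose ends are marked as
real; the real ends form the diagram `E`, and after the operation `op S` on the crossings in `S`
(which are not real) all ends which are not real can be removed by first and second Reidemeister
moves. The relation is stable under all moves applied to `E`.
-/

set_option autoImplicit false

namespace Pool.Agent.Q125.VK

open List (replicate)

/-- The properties of the operations `change` and `virtualize` which are needed. -/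
structure OpLaw (op : Finset ℕ → End → List End) : Prop where
  not_mem : ∀ (S : Finset ℕ) (x : End), x.name ∉ S → op S x = [x]
  ren : ∀ (g : ℕ → ℕ), Function.Injective g → ∀ (S : Finset ℕ) (x : End),
    op (S.image g) (x.ren g) = (op S x).map (End.ren g)

/-- Ends with a mark: `true` for real ends. -/
abbrev Lt : Type := End × Bool

/-- The diagram of a marked word. -/
def dg (w : List Lt) : List End := w.map Prod.fst

/-- The real ends of a marked word. -/
def er (w : List Lt) : List End := (w.filter fun z => z.2).map Prod.fst

/-- The word with holes: real ends are holes, the operation is applied to the others. -/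
def marks (o : End → List End) (w : List Lt) : List (Option End) :=
  w.flatMap fun z => if z.2 then [none] else (o z.1).map some

section simps
variable (o : End → List End) (u v : List Lt) (x : End)

@[simp] theorem dg_nil : dg [] = [] := rfl
@[simp] theorem er_nil : er [] = [] := rfl
@[simp] theorem marks_nil : marks o [] = [] := rfl
@[simp] theorem dg_append : dg (u ++ v) = dg u ++ dg v := by simp [dg]
@[simp] theorem er_append : er (u ++ v) = er u ++ er v := by simp [er]
@[simp] theorem marks_append : marks o (u ++ v) = marks o u ++ marks o v := by simp [marks]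
@[simp] theorem dg_cons (z : Lt) : dg (z :: u) = z.1 :: dg u := rfl
@[simp] theorem er_cons_true : er ((x, true) :: u) = x :: er u := by simp [er]
@[simp] theorem er_cons_false : er ((x, false) :: u) = er u := by simp [er]
@[simp] theorem marks_cons_true : marks o ((x, true) :: u) = none :: marks o u := by simp [marks]
@[simp] theorem marks_cons_false :
    marks o ((x, false) :: u) = (o x).map some ++ marks o u := by simp [marks]

end simps

theorem er_split {x : End} : ∀ {w : List Lt} {A B : List End}, er w = A ++ x :: B →
    ∃ u v, w = u ++ (x, true) :: v ∧ er u = A ∧ er v = B := by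
  intro w
  induction w with
  | nil => intro A B h; simp at h
  | cons z w ih =>
    intro A B h
    obtain ⟨y, b⟩ := z
    cases b with
    | false =>
      rw [er_cons_false] at h
      obtain ⟨u, v, rfl, h1, h2⟩ := ih h
      exact ⟨(y, false) :: u, v, rfl, by simpa using h1, h2⟩
    | true =>
      rw [er_cons_true] at h
      cases A with
      | nil =>
        simp only [List.nil_append, List.cons.injEq] at h
        obtain ⟨rfl, h⟩ := h
        exact ⟨[], w, rfl, rfl, h⟩
      | cons a A =>
        simp only [List.cons_append, List.cons.injEq] at h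
        obtain ⟨rfl, h⟩ := h
        obtain ⟨u, v, rfl, h1, h2⟩ := ih h
        exact ⟨(y, true) :: u, v, rfl, by simpa using h1, h2⟩

theorem er_split0 {x : End} {w : List Lt} {B : List End} (h : er w = x :: B) :
    ∃ u v, w = u ++ (x, true) :: v ∧ er u = [] ∧ er v = B := er_split (A := []) h

theorem fill_junk (o : End → List End) : ∀ {J : List Lt}, er J = [] →
    Fill some (marks o J) (marks o J) [] := by
  intro J
  induction J with
  | nil => intro _; exact Fill.nil
  | cons z J ih =>
    intro h
    obtain ⟨y, b⟩ := z
    cases b with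
    | true => simp at h
    | false =>
      rw [er_cons_false] at h
      rw [marks_cons_false]
      have : Fill (some : End → Option End) ((o y).map some) ((o y).map some) [] := by
        generalize o y = L
        induction L with
        | nil => exact Fill.nil
        | cons a L ih => exact Fill.junk _ _ _ _ ih
      have h2 := this.append (ih h)
      simpa using h2

theorem van_holes {V a : List (Option End)} {n : ℕ} (h : Van V)
    (hf : Fill some V a (replicate n none)) : Van a := h.fill _ _ hf (Van.holes n)

theorem exists_gap (o : End → List End) {w : List Lt} {A B : List End} (h : er w = A ++ B) :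
    ∃ u v, w = u ++ v ∧ er u = A ∧ er v = B ∧ ∀ P, Van (P ++ none :: marks o w) → ∀ n,
      Van (P ++ none :: (marks o u ++ (replicate n none ++ marks o v))) := by
  rcases List.eq_nil_or_concat A with rfl | ⟨A', a, rfl⟩
  · refine ⟨[], w, rfl, rfl, h, fun P hV n => ?_⟩
    obtain ⟨m, hm⟩ := Fill.self P
    obtain ⟨l, hl⟩ := Fill.self (marks o w)
    have := hm.append (Fill.hole (none :: replicate n none) _ _ _ hl)
    have e : replicate m (none : Option End) ++ (none :: replicate n none ++ replicate l none) =
        replicate (m + (1 + n + l)) none := by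
      rw [List.replicate_add, List.replicate_add, List.replicate_add]
      rfl
    rw [e] at this
    have := van_holes hV this
    simpa using this
  · have h' : er w = A' ++ a :: B := by simpa using h
    obtain ⟨u, v, rfl, h1, h2⟩ := er_split h'
    refine ⟨u ++ [(a, true)], v, by simp, by simp [h1], h2, fun P hV n => ?_⟩
    obtain ⟨m, hm⟩ := Fill.self P
    obtain ⟨l, hl⟩ := Fill.self (marks o u)
    obtain ⟨k, hk⟩ := Fill.self (marks o v)
    rw [marks_append, marks_cons_true] at hV
    have := hm.append (Fill.hole [none] _ _ _
      (hl.append (Fill.hole (none :: replicate n none) _ _ _ hk)))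
    have e : replicate m (none : Option End) ++ ([none] ++ (replicate l none ++
        (none :: replicate n none ++ replicate k none))) =
        replicate (m + (1 + (l + (1 + n + k)))) none := by
      rw [List.replicate_add, List.replicate_add, List.replicate_add, List.replicate_add,
        List.replicate_add]
      rfl
    rw [e] at this
    have := van_holes hV this
    simpa using this

/-- The representation relation. -/
structure Rep (op : Finset ℕ → End → List End) (D E : List End) (S : Finset ℕ)
    (w : List Lt) : Prop where
  veq : VEq D (dg w)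
  gauss : IsGauss (dg w)
  sub : S ⊆ crossings (dg w)
  real : ∀ x, (x, true) ∈ w → x.name ∉ S
  er_eq : er w = E
  van : Van (none :: marks (op S) w)

theorem mem_dg {w : List Lt} {x : End} {b : Bool} (h : (x, b) ∈ w) : x ∈ dg w :=
  List.mem_map_of_mem (f := Prod.fst) h

theorem mem_er {w : List Lt} {x : End} : x ∈ er w ↔ (x, true) ∈ w := by
  simp [er]

theorem nodup_of_gauss {w : List End} (h : IsGauss w) : w.Nodup := List.Nodup.of_map _ h.1

theorem flag_unique {w : List Lt} (h : IsGauss (dg w)) {x : End} (h1 : (x, true) ∈ w)
    (h2 : (x, false) ∈ w) : False := by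
  have := List.inj_on_of_nodup_map (nodup_of_gauss h) h1 h2 rfl
  simp at this

theorem junk_not_real {w : List Lt} (h : IsGauss (dg w)) (h' : IsGauss (er w)) {z : End}
    (hz : (z, false) ∈ w) : z.name ∉ crossings (er w) := by
  intro hmem
  rw [crossings, List.mem_toFinset, List.mem_map] at hmem
  obtain ⟨y, hy, hyz⟩ := hmem
  have hy2 := h'.2 y hy
  rw [mem_er] at hy hy2
  by_cases ht : y.tail = z.tail
  · have := h.eq_of_key (mem_dg hy) (mem_dg hz) hyz ht
    subst this
    exact flag_unique h hy hz
  · have : y.opp = z := h.eq_of_key (mem_dg hy2) (mem_dg hz) hyz (by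
      simp only [End.opp]; cases hy' : y.tail <;> cases hz' : z.tail <;> simp_all)
    subst this
    exact flag_unique h hy2 hz

theorem crossings_mem {w : List End} {n : ℕ} : n ∈ crossings w ↔ ∃ x ∈ w, x.name = n := by
  simp [crossings]

theorem marks_ren {op : Finset ℕ → End → List End} (hop : OpLaw op) {h : ℕ → ℕ}
    (hinj : Function.Injective h) (S : Finset ℕ) (w : List Lt) :
    marks (op (S.image h)) (w.map fun z => (z.1.ren h, z.2)) =
      (marks (op S) w).map (Option.map (End.ren h)) := by
  induction w with
  | nil => rfl
  | cons z w ih =>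
    obtain ⟨x, b⟩ := z
    cases b with
    | true => simp [ih]
    | false => simp [ih, hop.ren h hinj]

theorem Rep.renReal {op : Finset ℕ → End → List End} (hop : OpLaw op) {D E : List End}
    {S : Finset ℕ} {w : List Lt} (h : Rep op D E S w) (hE : IsGauss E) (ρ : ℕ → ℕ)
    (hρ : Set.InjOn ρ (crossings E)) (F : Finset ℕ) :
    ∃ S' w', Rep op D (E.map (End.ren ρ)) S' w' ∧ S'.card = S.card ∧
      ∀ x, (x, false) ∈ w' → x.name ∉ F := by
  classical
  obtain ⟨N, hN⟩ : ∃ N, ∀ m ∈ F ∪ (crossings E).image ρ, m < N := by
    refine ⟨(F ∪ (crossings E).image ρ).sup id + 1, fun m hm => ?_⟩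
    have := Finset.le_sup (f := id) hm
    simp only [id] at this
    omega
  let g : ℕ → ℕ := fun n => if n ∈ crossings E then ρ n else n + N
  have hg : Function.Injective g := by
    intro a b hab
    simp only [g] at hab
    split_ifs at hab with h1 h2 h2
    · exact hρ h1 h2 hab
    · have := hN (ρ a) (by simp only [Finset.mem_union, Finset.mem_image]; exact Or.inr ⟨a, h1, rfl⟩)
      omega
    · have := hN (ρ b) (by simp only [Finset.mem_union, Finset.mem_image]; exact Or.inr ⟨b, h2, rfl⟩)
      omega
    · omega
  have hdg : dg (w.map fun z => (z.1.ren g, z.2)) = (dg w).map (End.ren g) := by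
    simp [dg, List.map_map, Function.comp_def]
  have her : er (w.map fun z => (z.1.ren g, z.2)) = (er w).map (End.ren g) := by
    simp [er, List.filter_map, List.map_map, Function.comp_def]
  refine ⟨S.image g, w.map fun z => (z.1.ren g, z.2), ⟨?_, ?_, ?_, ?_, ?_, ?_⟩, ?_, ?_⟩
  · rw [hdg]
    exact h.veq.trans (VEq.of h.gauss (h.gauss.ren hg) (Move.rename g hg _))
  · rw [hdg]; exact h.gauss.ren hg
  · intro n hn
    rw [Finset.mem_image] at hn
    obtain ⟨m, hm, rfl⟩ := hn
    obtain ⟨x, hx, rfl⟩ := crossings_mem.1 (h.sub hm)
    rw [hdg, crossings_mem]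
    exact ⟨x.ren g, List.mem_map_of_mem hx, rfl⟩
  · intro x hx hxS
    rw [List.mem_map] at hx
    obtain ⟨z, hz, hzx⟩ := hx
    obtain ⟨y, b⟩ := z
    simp only [Prod.mk.injEq] at hzx
    obtain ⟨rfl, rfl⟩ := hzx
    rw [Finset.mem_image] at hxS
    obtain ⟨m, hm, hmy⟩ := hxS
    have := hg hmy
    subst this
    exact h.real y hz hm
  · rw [her, h.er_eq]
    apply List.map_congr_left
    intro x hx
    have : x.name ∈ crossings E := crossings_mem.2 ⟨x, hx, rfl⟩
    simp [End.ren, g, this]
  · rw [marks_ren hop hg]
    have := h.van.ren g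
    simpa using this
  · exact Finset.card_image_of_injective _ hg
  · intro x hx hxF
    rw [List.mem_map] at hx
    obtain ⟨z, hz, hzx⟩ := hx
    obtain ⟨y, b⟩ := z
    simp only [Prod.mk.injEq] at hzx
    obtain ⟨rfl, rfl⟩ := hzx
    have hny := junk_not_real h.gauss (by rw [h.er_eq]; exact hE) hz
    rw [h.er_eq] at hny
    have := hN _ (Finset.mem_union_left _ hxF)
    simp only [End.ren_name, g, if_neg hny] at this
    omega

variable {op : Finset ℕ → End → List End} {D : List End}

theorem Rep.rotate {A B : List End} {S : Finset ℕ} {w : List Lt}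
    (h : Rep op D (A ++ B) S w) : ∃ w', Rep op D (B ++ A) S w' := by
  obtain ⟨u, v, rfl, hu, hv, hV⟩ := exists_gap (op S) h.er_eq
  have h1 := hV [] h.van 1
  have hp : (dg (u ++ v)).Perm (dg (v ++ u)) := by simpa using List.perm_append_comm
  refine ⟨v ++ u, ⟨?_, h.gauss.perm hp, ?_, ?_, ?_, ?_⟩⟩
  · refine h.veq.trans (VEq.of h.gauss (h.gauss.perm hp) ?_)
    simpa using Move.rotate (dg u) (dg v)
  · intro n hn
    obtain ⟨x, hx, rfl⟩ := crossings_mem.1 (h.sub hn)
    exact crossings_mem.2 ⟨x, hp.mem_iff.1 hx, rfl⟩
  · intro x hx
    refine h.real x ?_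
    simp only [List.mem_append] at hx ⊢
    exact hx.symm
  · simp [hu, hv]
  · obtain ⟨m, hm⟩ := Fill.self (marks (op S) u)
    obtain ⟨l, hl⟩ := Fill.self (marks (op S) v)
    have h2 := Fill.hole [] _ _ _ (hm.append (Fill.hole [none] _ _ _ hl))
    have e : ([] : List (Option End)) ++ (replicate m (none : Option End) ++ ([none] ++
        replicate l none)) = replicate (m + (1 + l)) none := by
      rw [List.replicate_add, List.replicate_add]; rfl
    rw [e] at h2
    have h3 : Van (marks (op S) u ++ none :: marks (op S) v) := van_holes (by simpa using h1) h2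
    have h4 := Van.rot _ _ h3
    simpa using h4

theorem Rep.r1_remove (hop : OpLaw op) {x : End} {A B : List End} {S : Finset ℕ} {w : List Lt}
    (h : Rep op D (A ++ x :: x.opp :: B) S w) : ∃ w', Rep op D (A ++ B) S w' := by
  obtain ⟨u, w1, rfl, hu, h1⟩ := er_split h.er_eq
  obtain ⟨J, v, rfl, hJ, hv⟩ := er_split0 h1
  have hxS : x.name ∉ S := h.real x (by simp)
  refine ⟨u ++ (x, false) :: (J ++ (x.opp, false) :: v), ⟨?_, ?_, ?_, ?_, ?_, ?_⟩⟩
  · simpa using h.veq
  · simpa using h.gauss
  · simpa using h.sub
  · intro y hy
    refine h.real y ?_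
    simp only [List.mem_append, List.mem_cons, Prod.mk.injEq, Bool.true_eq_false, and_false,
      false_or] at hy ⊢
    tauto
  · simp [hu, hJ, hv]
  · obtain ⟨m, hm⟩ := Fill.self (marks (op S) u)
    obtain ⟨l, hl⟩ := Fill.self (marks (op S) v)
    have h2 := Fill.hole [none] _ _ _ (hm.append (Fill.hole [some x] _ _ _
      ((fill_junk (op S) hJ).append (Fill.hole [some x.opp] _ _ _ hl))))
    have h3 := h.van
    simp only [marks_append, marks_cons_true] at h3
    have h4 := h3.fill _ _ h2 (by
      have := Van.r1 x (none :: replicate m none) (replicate l none) (by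
        have := Van.holes (1 + m + l)
        rw [List.replicate_add, List.replicate_add] at this
        exact this)
      simpa using this)
    simpa [hop.not_mem S x hxS, hop.not_mem S x.opp hxS] using h4

theorem Rep.r1_add (hop : OpLaw op) {x : End} {A B : List End} {S : Finset ℕ} {w : List Lt}
    (h : Rep op D (A ++ B) S w) (hE : IsGauss (A ++ x :: x.opp :: B)) :
    ∃ S' w', Rep op D (A ++ x :: x.opp :: B) S' w' ∧ S'.card = S.card := by
  have hE1 := hE.perm (perm_r1 x A B)
  have hE0 : IsGauss (A ++ B) := hE1.tail_pair
  have hxE : x.name ∉ crossings (A ++ B) := by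
    intro hx
    obtain ⟨y, hy, hyx⟩ := crossings_mem.1 hx
    have hn := nodup_of_gauss hE1
    simp only [List.nodup_cons, List.mem_cons, not_or] at hn
    by_cases ht : y.tail = x.tail
    · have := hE1.eq_of_key (x := y) (y := x) (by simp [List.mem_append.1 hy]) (by simp) hyx ht
      subst this
      exact hn.1.2 hy
    · have : y = x.opp := hE1.eq_of_key (by simp [List.mem_append.1 hy]) (by simp) hyx (by
        simp only [End.opp]; cases hy' : y.tail <;> cases hz' : x.tail <;> simp_all)
      subst this
      exact hn.2.1 hy
  obtain ⟨S, w, h, hc, hF⟩ := h.renReal hop hE0 id (Set.injOn_id _) {x.name}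
  have hid : (A ++ B).map (End.ren id) = A ++ B := by
    have : End.ren id = id := by funext y; cases y; rfl
    rw [this]; simp
  rw [hid] at h
  refine ⟨S, ?_⟩
  have hfresh : x.name ∉ crossings (dg w) := by
    intro hx
    obtain ⟨y, hy, hyx⟩ := crossings_mem.1 hx
    rw [dg, List.mem_map] at hy
    obtain ⟨⟨y', b⟩, hy', rfl⟩ := hy
    cases b with
    | true =>
      apply hxE
      rw [← h.er_eq]
      exact crossings_mem.2 ⟨y', mem_er.2 hy', hyx⟩
    | false => exact hF y' hy' (by simpa using hyx)
  obtain ⟨u, v, rfl, hu, hv, hV⟩ := exists_gap (op S) h.er_eq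
  have h1 := hV [] h.van 2
  have hg : IsGauss (dg u ++ x :: x.opp :: dg v) := by
    refine IsGauss.perm ?_ (perm_r1 x _ _).symm
    refine IsGauss.add_pair (by simpa using h.gauss) ?_
    intro z hz hzx
    exact hfresh (crossings_mem.2 ⟨z, by simpa using hz, hzx⟩)
  refine ⟨u ++ (x, true) :: (x.opp, true) :: v, ⟨?_, ?_, ?_, ?_, ?_, ?_⟩, hc⟩
  · refine h.veq.trans ?_
    simp only [dg_append, dg_cons]
    have := Move.r1 x (dg u) (dg v)
    exact (VEq.of hg (by simpa using h.gauss) this).symm
  · simpa using hg
  · intro n hn
    obtain ⟨y, hy, rfl⟩ := crossings_mem.1 (h.sub hn)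
    refine crossings_mem.2 ⟨y, ?_, rfl⟩
    simp only [dg_append, dg_cons, List.mem_append, List.mem_cons] at hy ⊢
    tauto
  · intro y hy
    simp only [List.mem_append, List.mem_cons, Prod.mk.injEq, and_true] at hy
    rcases hy with hy | rfl | rfl | hy
    · exact h.real y (by simp [hy])
    · exact fun hx => hfresh (h.sub hx)
    · exact fun hx => hfresh (h.sub hx)
    · exact h.real y (by simp [hy])
  · simp [hu, hv]
  · simpa [List.replicate_succ] using h1

end Pool.Agent.Q125.VK
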