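import Mathlib
import Pool.Agent.Q125.VK.Lift

/-!
# Lifting isotopies: second and third Reidemeister moves
-/

set_option autoImplicit false

namespace Pool.Agent.Q125.VK

open List (replicate)

variable {op : Finset ℕ → End → List End} {D : List End}

theorem IsGauss.fresh {x : End} {L : List End} (h : IsGauss (x :: x.opp :: L)) :
    x.name ∉ crossings L := by
  intro hx
  obtain ⟨y, hy, hyx⟩ := crossings_mem.1 hx
  have hn := nodup_of_gauss h
  simp only [List.nodup_cons, List.mem_cons, not_or] at hn
  by_cases ht : y.tail = x.tail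
  · have := h.eq_of_key (x := y) (y := x) (by simp [hy]) (by simp) hyx ht
    subst this
    exact hn.1.2 hy
  · have : y = x.opp := h.eq_of_key (by simp [hy]) (by simp) hyx (by
      simp only [End.opp]; cases hy' : y.tail <;> cases hz' : x.tail <;> simp_all)
    subst this
    exact hn.2.1 hy

theorem map_ren_id (E : List End) : E.map (End.ren id) = E := by
  have : End.ren id = id := by funext y; cases y; rfl
  rw [this]; simp

/-- The junk crossings can be renamed so that given names do not occur among them. -/
theorem Rep.avoid (hop : OpLaw op) {E : List End} {S : Finset ℕ} {w : List Lt}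
    (h : Rep op D E S w) (hE : IsGauss E) (F : Finset ℕ) :
    ∃ S' w', Rep op D E S' w' ∧ S'.card = S.card ∧
      ∀ n ∈ F, n ∉ crossings E → n ∉ crossings (dg w') := by
  obtain ⟨S, w, h, hc, hF⟩ := h.renReal hop hE id (Set.injOn_id _) F
  rw [map_ren_id] at h
  refine ⟨S, w, h, hc, ?_⟩
  intro n hn hnE hx
  obtain ⟨y, hy, hyx⟩ := crossings_mem.1 hx
  rw [dg, List.mem_map] at hy
  obtain ⟨⟨y', b⟩, hy', rfl⟩ := hy
  cases b with
  | true =>
    apply hnE
    rw [← h.er_eq]
    exact crossings_mem.2 ⟨y', mem_er.2 hy', hyx⟩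
  | false =>
    have hyx' : y'.name = n := hyx
    exact hF y' hy' (hyx'.symm ▸ hn)

theorem Rep.r2_remove (hop : OpLaw op) {x y x' y' : End} (hB : Bigon x y x' y')
    {A B C : List End} {S : Finset ℕ} {w : List Lt}
    (h : Rep op D (A ++ x :: y :: (B ++ x' :: y' :: C)) S w) :
    ∃ w', Rep op D (A ++ (B ++ C)) S w' := by
  obtain ⟨u, w1, rfl, hu, h1⟩ := er_split h.er_eq
  obtain ⟨J, w2, rfl, hJ, h2⟩ := er_split0 h1
  obtain ⟨v, w3, rfl, hv, h3⟩ := er_split h2
  obtain ⟨K, t, rfl, hK, ht⟩ := er_split0 h3
  have hx : x.name ∉ S := h.real x (by simp)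
  have hy : y.name ∉ S := h.real y (by simp)
  have hx' : x'.name ∉ S := h.real x' (by simp)
  have hy' : y'.name ∉ S := h.real y' (by simp)
  refine ⟨u ++ (x, false) :: (J ++ (y, false) :: (v ++ (x', false) :: (K ++ (y', false) :: t))),
    ⟨?_, ?_, ?_, ?_, ?_, ?_⟩⟩
  · simpa using h.veq
  · simpa using h.gauss
  · simpa using h.sub
  · intro z hz
    refine h.real z ?_
    simp only [List.mem_append, List.mem_cons, Prod.mk.injEq, Bool.true_eq_false, and_false,
      false_or] at hz ⊢
    tauto
  · simp [hu, hJ, hv, hK, ht]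
  · obtain ⟨m, hm⟩ := Fill.self (marks (op S) u)
    obtain ⟨l, hl⟩ := Fill.self (marks (op S) v)
    obtain ⟨k, hk⟩ := Fill.self (marks (op S) t)
    have h2 := Fill.hole [none] _ _ _ (hm.append (Fill.hole [some x] _ _ _
      ((fill_junk (op S) hJ).append (Fill.hole [some y] _ _ _ (hl.append
        (Fill.hole [some x'] _ _ _ ((fill_junk (op S) hK).append
          (Fill.hole [some y'] _ _ _ hk))))))))
    have h3 := h.van
    simp only [marks_append, marks_cons_true] at h3
    have h4 := h3.fill _ _ h2 (by
      have := Van.r2 x y x' y' hB (none :: replicate m none) (replicate l none)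
        (replicate k none) (by
        have := Van.holes (1 + m + (l + k))
        rw [List.replicate_add, List.replicate_add, List.replicate_add] at this
        exact this)
      simpa using this)
    simpa [hop.not_mem S x hx, hop.not_mem S y hy, hop.not_mem S x' hx',
      hop.not_mem S y' hy'] using h4

theorem Rep.r2_add (hop : OpLaw op) {x y x' y' : End} (hB : Bigon x y x' y')
    {A B C : List End} {S : Finset ℕ} {w : List Lt}
    (h : Rep op D (A ++ (B ++ C)) S w)
    (hE : IsGauss (A ++ x :: y :: (B ++ x' :: y' :: C))) :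
    ∃ S' w', Rep op D (A ++ x :: y :: (B ++ x' :: y' :: C)) S' w' ∧ S'.card = S.card := by
  have hE1 := hE.perm (perm_r2 hB A B C)
  have hE0 : IsGauss (A ++ (B ++ C)) := hE1.tail_pair.tail_pair
  have hxE : x.name ∉ crossings (A ++ (B ++ C)) := by
    intro hx
    apply hE1.fresh
    obtain ⟨z, hz, hzx⟩ := crossings_mem.1 hx
    exact crossings_mem.2 ⟨z, by simp only [List.mem_cons]; tauto, hzx⟩
  have hyE : y.name ∉ crossings (A ++ (B ++ C)) := hE1.tail_pair.fresh
  have hxy : y.name ≠ x.name := by
    intro hx
    exact hE1.fresh (crossings_mem.2 ⟨y, by simp, hx⟩)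
  obtain ⟨S, w, h, hc, hF⟩ := h.avoid hop hE0 {x.name, y.name}
  have hfx : x.name ∉ crossings (dg w) := hF _ (by simp) hxE
  have hfy : y.name ∉ crossings (dg w) := hF _ (by simp) hyE
  obtain ⟨u, v', rfl, hu, hv', hV⟩ := exists_gap (op S) h.er_eq
  have h1 := hV [] h.van 2
  obtain ⟨v, t, rfl, hv, ht, hV'⟩ := exists_gap (op S) hv'
  have h2 := hV' (none :: (marks (op S) u ++ [none]))
    (by simpa [List.replicate_succ] using h1) 2
  have hx'n : x'.name = x.name ∨ x'.name = y.name := by
    rcases hB.2.2 with ⟨rfl, rfl⟩ | ⟨rfl, rfl⟩ <;> simp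
  have hy'n : y'.name = x.name ∨ y'.name = y.name := by
    rcases hB.2.2 with ⟨rfl, rfl⟩ | ⟨rfl, rfl⟩ <;> simp
  have hg : IsGauss (dg u ++ x :: y :: (dg v ++ x' :: y' :: dg t)) := by
    refine IsGauss.perm ?_ (perm_r2 hB _ _ _).symm
    refine IsGauss.add_pair (IsGauss.add_pair (by simpa using h.gauss) ?_) ?_
    · intro z hz hzx
      exact hfy (crossings_mem.2 ⟨z, by simpa using hz, hzx⟩)
    · intro z hz hzx
      simp only [List.mem_cons] at hz
      rcases hz with rfl | rfl | hz
      · exact hxy hzx
      · exact hxy hzx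
      · exact hfx (crossings_mem.2 ⟨z, by simpa using hz, hzx⟩)
  refine ⟨S, u ++ (x, true) :: (y, true) :: (v ++ (x', true) :: (y', true) :: t),
    ⟨?_, ?_, ?_, ?_, ?_, ?_⟩, hc⟩
  · refine h.veq.trans ?_
    simp only [dg_append, dg_cons]
    have := Move.r2 x y x' y' hB (dg u) (dg v) (dg t)
    exact (VEq.of hg (by simpa using h.gauss) this).symm
  · simpa using hg
  · intro n hn
    obtain ⟨z, hz, rfl⟩ := crossings_mem.1 (h.sub hn)
    refine crossings_mem.2 ⟨z, ?_, rfl⟩
    simp only [dg_append, dg_cons, List.mem_append, List.mem_cons] at hz ⊢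
    tauto
  · intro z hz
    simp only [List.mem_append, List.mem_cons, Prod.mk.injEq, and_true] at hz
    have hxS : x.name ∉ S := fun hx => hfx (h.sub hx)
    have hyS : y.name ∉ S := fun hx => hfy (h.sub hx)
    rcases hz with hz | rfl | rfl | hz | rfl | rfl | hz
    · exact h.real z (by simp [hz])
    · exact hxS
    · exact hyS
    · exact h.real z (by simp [hz])
    · rcases hx'n with h | h <;> rw [h] <;> assumption
    · rcases hy'n with h | h <;> rw [h] <;> assumption
    · exact h.real z (by simp [hz])
  · simp [hu, hv, ht]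
  · simpa [List.replicate_succ] using h2

/-! ## The third Reidemeister move -/

theorem perm_three {α : Type} {x y z s t u : α} (h : [s, t, u].Perm [x, y, z]) :
    [s, t, u] ∈ [[x, y, z], [x, z, y], [y, x, z], [y, z, x], [z, x, y], [z, y, x]] := by
  have hs : s ∈ [x, y, z] := h.mem_iff.1 (by simp)
  have two : ∀ {a b c d : α}, [a, b].Perm [c, d] → [a, b] = [c, d] ∨ [a, b] = [d, c] := by
    intro a b c d h
    have ha : a ∈ [c, d] := h.mem_iff.1 (by simp)
    simp only [List.mem_cons, List.not_mem_nil, or_false] at ha
    rcases ha with rfl | rfl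
    · have := (List.perm_cons _).1 h
      rw [List.perm_singleton] at this
      left; rw [this]
    · have := (List.perm_cons _).1 (h.trans (List.Perm.swap _ _ _))
      rw [List.perm_singleton] at this
      right; rw [this]
  simp only [List.mem_cons, List.not_mem_nil, or_false] at hs
  rcases hs with rfl | rfl | rfl
  · have := two ((List.perm_cons _).1 h)
    rcases this with h | h <;> simp only [List.cons.injEq, and_true] at h <;> simp [h]
  · have := two ((List.perm_cons _).1 (h.trans (List.Perm.swap _ _ _)))
    rcases this with h | h <;> simp only [List.cons.injEq, and_true] at h <;> simp [h]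
  · have h' : [s, t, u].Perm [s, x, y] :=
      h.trans ((List.Perm.cons _ (List.Perm.swap _ _ _)).trans (List.Perm.swap _ _ _))
    have := two ((List.perm_cons _).1 h')
    rcases this with h | h <;> simp only [List.cons.injEq, and_true] at h <;> simp [h]

/-- A copy of an end, the name being increased by `N`. -/
def pr (N : ℕ) (x : End) : End := ⟨x.name + N, x.tail, x.pos⟩

/-- A copy of an end with the opposite sign, the name being increased by `N`. -/
def br (N : ℕ) (x : End) : End := ⟨x.name + N, x.tail, !x.pos⟩

/-- The word inserted before the move. -/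
def K1 (N M : ℕ) (s : End × End) : List End := [br M s.1, pr N s.1, pr N s.2, br M s.2]

/-- The first test word. -/
def V1 (N M : ℕ) (l : List (End × End)) : List (Option End) :=
  none :: l.flatMap fun s => (K1 N M s).map some ++ [none]

/-- The second test word. -/
def V0 (M : ℕ) (l : List (End × End)) : List (Option End) :=
  none :: l.flatMap fun s => [some s.1, some (br M s.1), none, none, some (br M s.2), some s.2, none]

/-- All orders of a list of three elements. -/
def perms3 {α : Type} : List α → List (List α)
  | [x, y, z] => [[x, y, z], [x, z, y], [y, x, z], [y, z, x], [z, x, y], [z, y, x]]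
  | _ => []

theorem check_all : ∀ δ p q r : Bool, ∀ l ∈ perms3 (triangle δ 0 1 2 p q r),
    check 3 (V1 3 6 l) = true ∧ check 3 (V0 6 l) = true := by
  decide

end Pool.Agent.Q125.VK
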