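import Mathlib
import Pool.Agent.Q125.VK.Lift2

/-!
# Lifting isotopies: the third Reidemeister move
-/

set_option autoImplicit false

namespace Pool.Agent.Q125.VK

open List (replicate)

/-- The renaming used for the test words. -/
def gmap (a b c N : ℕ) (n : ℕ) : ℕ :=
  (if n % 3 = 0 then a else if n % 3 = 1 then b else c) + (n / 3) * N

theorem gmap_add3 (a b c N n : ℕ) : gmap a b c N (n + 3) = gmap a b c N n + N := by
  unfold gmap
  have h1 : (n + 3) % 3 = n % 3 := by omega
  have h2 : (n + 3) / 3 = n / 3 + 1 := by omega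
  rw [h1, h2]; ring

theorem gmap_add6 (a b c N n : ℕ) : gmap a b c N (n + 6) = gmap a b c N n + 2 * N := by
  have : n + 6 = (n + 3) + 3 := rfl
  rw [this, gmap_add3, gmap_add3]; ring

@[simp] theorem gmap_zero (a b c N : ℕ) : gmap a b c N 0 = a := by simp [gmap]
@[simp] theorem gmap_one (a b c N : ℕ) : gmap a b c N 1 = b := by simp [gmap]
@[simp] theorem gmap_two (a b c N : ℕ) : gmap a b c N 2 = c := by simp [gmap]

/-- Renaming of a pair. -/
def ren2 (g : ℕ → ℕ) (s : End × End) : End × End := (s.1.ren g, s.2.ren g)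

theorem triangle_ren (g : ℕ → ℕ) (δ : Bool) (a b c : ℕ) (p q r : Bool) :
    (triangle δ a b c p q r).map (ren2 g) = triangle δ (g a) (g b) (g c) p q r := by
  cases δ <;> cases p <;> cases q <;> cases r <;> rfl

theorem perms3_map {α β : Type} (f : α → β) (x y z : α) :
    perms3 ([x, y, z].map f) = (perms3 [x, y, z]).map (List.map f) := rfl

theorem exists_model {δ : Bool} {a b c : ℕ} {p q r : Bool} {s t u : End × End}
    (h : [s, t, u].Perm (triangle δ a b c p q r)) (N : ℕ) :
    ∃ l ∈ perms3 (triangle δ 0 1 2 p q r), [s, t, u] = l.map (ren2 (gmap a b c N)) := by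
  have h1 : triangle δ a b c p q r = (triangle δ 0 1 2 p q r).map (ren2 (gmap a b c N)) := by
    rw [triangle_ren]; simp
  have h2 : [s, t, u] ∈ perms3 (triangle δ a b c p q r) := perm_three h
  rw [h1] at h2
  have h3 := perms3_map (ren2 (gmap a b c N)) (order ((δ == p) == (q == r)) ⟨0, true, p⟩ ⟨1, true, q⟩)
    (order (δ == p) ⟨0, false, p⟩ ⟨2, true, r⟩) (order (δ == q) ⟨1, false, q⟩ ⟨2, false, r⟩)
  change perms3 ((triangle δ 0 1 2 p q r).map (ren2 (gmap a b c N))) =
    (perms3 (triangle δ 0 1 2 p q r)).map (List.map (ren2 (gmap a b c N))) at h3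
  rw [h3, List.mem_map] at h2
  obtain ⟨l, hl, hl2⟩ := h2
  exact ⟨l, hl, hl2.symm⟩

theorem K1_ren (a b c N : ℕ) (s : End × End) :
    (K1 3 6 s).map (End.ren (gmap a b c N)) = K1 N (2 * N) (ren2 (gmap a b c N) s) := by
  simp only [K1, br, pr, End.ren, ren2, gmap_add3, List.map_cons, List.map_nil, List.cons.injEq,
    End.mk.injEq, and_true, true_and]
  constructor <;> ring

theorem V1_ren (a b c N : ℕ) (l : List (End × End)) :
    (V1 3 6 l).map (Option.map (End.ren (gmap a b c N))) =
      V1 N (2 * N) (l.map (ren2 (gmap a b c N))) := by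
  unfold V1
  rw [List.map_cons, List.map_flatMap, List.flatMap_map]
  congr 1
  apply List.flatMap_congr
  intro s _
  rw [← K1_ren]
  simp

theorem V0_ren (a b c N : ℕ) (l : List (End × End)) :
    (V0 6 l).map (Option.map (End.ren (gmap a b c N))) =
      V0 (2 * N) (l.map (ren2 (gmap a b c N))) := by
  unfold V0
  rw [List.map_cons, List.map_flatMap, List.flatMap_map]
  congr 1
  apply List.flatMap_congr
  intro s _
  simp [br, End.ren, ren2, gmap_add6]

theorem van_V {δ : Bool} {a b c : ℕ} {p q r : Bool} {s t u : End × End}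
    (h : [s, t, u].Perm (triangle δ a b c p q r)) (N : ℕ) :
    Van (V1 N (2 * N) [s, t, u]) ∧ Van (V0 (2 * N) [s, t, u]) := by
  obtain ⟨l, hl, hl2⟩ := exists_model h N
  have := check_all δ p q r l hl
  rw [hl2, ← V1_ren, ← V0_ren]
  exact ⟨(check_sound _ _ this.1).ren _, (check_sound _ _ this.2).ren _⟩

theorem IsGauss.append {v w : List End} (hv : IsGauss v) (hw : IsGauss w)
    (hd : ∀ x ∈ v, ∀ y ∈ w, x.name ≠ y.name) : IsGauss (v ++ w) := by
  refine ⟨?_, ?_⟩
  · rw [List.map_append, List.nodup_append]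
    refine ⟨hv.1, hw.1, ?_⟩
    intro x hx y hy hxy
    rw [List.mem_map] at hx hy
    obtain ⟨x, hx, rfl⟩ := hx
    obtain ⟨y, hy, rfl⟩ := hy
    exact hd x hx y hy (congrArg Prod.fst hxy)
  · intro x hx
    rw [List.mem_append] at hx ⊢
    exact hx.imp (hv.2 x) (hw.2 x)

/-- The six ends of a triangle. -/
def flat (l : List (End × End)) : List End := l.flatMap fun s => [s.1, s.2]

theorem flat_perm {l l' : List (End × End)} (h : l.Perm l') : (flat l).Perm (flat l') :=
  List.Perm.flatMap_right _ h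

theorem flat_triangle {δ : Bool} {a b c : ℕ} {p q r : Bool} :
    (flat (triangle δ a b c p q r)).Perm
      [⟨a, true, p⟩, ⟨a, false, p⟩, ⟨b, true, q⟩, ⟨b, false, q⟩, ⟨c, true, r⟩, ⟨c, false, r⟩] := by
  have hs : ∀ (x y : End) (o : Bool), ([(order o x y).1, (order o x y).2]).Perm [x, y] := by
    intro x y o
    cases o
    · exact List.Perm.swap _ _ _
    · exact List.Perm.refl _
  have h1 : (flat (triangle δ a b c p q r)).Perm
      ([⟨a, true, p⟩, ⟨b, true, q⟩] ++ ([⟨a, false, p⟩, ⟨c, true, r⟩] ++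
        ([⟨b, false, q⟩, ⟨c, false, r⟩] ++ []))) := by
    unfold flat triangle
    rw [List.flatMap_cons, List.flatMap_cons, List.flatMap_cons, List.flatMap_nil]
    exact (hs _ _ _).append ((hs _ _ _).append ((hs _ _ _).append (List.Perm.refl _)))
  refine h1.trans ?_
  simp only [List.cons_append, List.nil_append]
  refine List.Perm.cons _ ?_
  refine (List.Perm.swap _ _ _).trans (List.Perm.cons _ (List.Perm.cons _ ?_))
  exact List.Perm.swap _ _ _

theorem flat_gauss {δ : Bool} {a b c : ℕ} {p q r : Bool} {s t u : End × End}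
    (h : [s, t, u].Perm (triangle δ a b c p q r)) {L : List End}
    (hL : IsGauss (flat [s, t, u] ++ L)) : IsGauss (flat [s, t, u]) := by
  refine ⟨?_, ?_⟩
  · have := hL.1
    rw [List.map_append, List.nodup_append] at this
    exact this.1
  · have hp := (flat_perm h).trans flat_triangle
    intro x hx
    rw [hp.mem_iff] at hx ⊢
    simp only [List.mem_cons, List.not_mem_nil, or_false] at hx
    rcases hx with rfl | rfl | rfl | rfl | rfl | rfl <;> simp [End.opp]

theorem flat_disjoint {T L : List End} (hT : IsGauss T) (hL : IsGauss (T ++ L)) :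
    ∀ x ∈ T, ∀ y ∈ L, x.name ≠ y.name := by
  intro x hx y hy hxy
  have hn := nodup_of_gauss hL
  rw [List.nodup_append] at hn
  by_cases ht : x.tail = y.tail
  · have := hL.eq_of_key (List.mem_append_left _ hx) (List.mem_append_right _ hy) hxy ht
    exact hn.2.2 x hx y hy this
  · have : x.opp = y := hL.eq_of_key (List.mem_append_left _ (hT.2 x hx))
      (List.mem_append_right _ hy) hxy (by
        simp only [End.opp]; cases hx' : x.tail <;> cases hy' : y.tail <;> simp_all)
    exact hn.2.2 _ (hT.2 x hx) y hy this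

theorem pr_eq (N : ℕ) (x : End) : pr N x = x.ren (· + N) := rfl

theorem gauss_pr (N : ℕ) {w : List End} (h : IsGauss w) : IsGauss (w.map (pr N)) :=
  h.ren (g := (· + N)) (add_left_injective N)

theorem gauss_br (N : ℕ) {w : List End} (h : IsGauss w) : IsGauss (w.map (br N)) := by
  obtain ⟨h1, h2⟩ := h
  refine ⟨?_, ?_⟩
  · rw [List.map_map]
    refine (List.nodup_map_iff_inj_on (List.Nodup.of_map _ h1)).2 ?_
    intro x hx y hy hxy
    apply List.inj_on_of_nodup_map h1 hx hy
    simp only [Function.comp_apply, br, Prod.mk.injEq] at hxy ⊢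
    exact ⟨by omega, hxy.2⟩
  · intro y hy
    rw [List.mem_map] at hy ⊢
    obtain ⟨x, hx, rfl⟩ := hy
    exact ⟨x.opp, h2 x hx, rfl⟩

end Pool.Agent.Q125.VK
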