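import Mathlib
import Pool.Agent.Q125.VK.Lift3

/-!
# Lifting isotopies: the third Reidemeister move, continued
-/

set_option autoImplicit false

namespace Pool.Agent.Q125.VK

open List (replicate)

theorem gauss_right {T L : List End} (hT : IsGauss T) (hL : IsGauss (T ++ L)) : IsGauss L := by
  have hd := flat_disjoint hT hL
  refine ⟨?_, ?_⟩
  · have := hL.1
    rw [List.map_append, List.nodup_append] at this
    exact this.2.1
  · intro y hy
    rcases List.mem_append.1 (hL.2 y (List.mem_append_right _ hy)) with h | h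
    · exact absurd rfl (hd _ h y hy)
    · exact h

theorem fill_some {α : Type} (f : End → α) (L : List End) : Fill f (L.map some) (L.map f) [] := by
  induction L with
  | nil => exact Fill.nil
  | cons a L ih => exact Fill.junk _ _ _ _ ih

theorem perm_six (A B C E0 : List End) (s1 s2 t1 t2 u1 u2 : End) :
    (A ++ s1 :: s2 :: (B ++ t1 :: t2 :: (C ++ u1 :: u2 :: E0))).Perm
      ([s1, s2, t1, t2, u1, u2] ++ (A ++ (B ++ (C ++ E0)))) := by
  rw [List.perm_iff_count]
  intro e
  simp only [List.count_append, List.count_cons, List.count_nil]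
  ring

theorem ren_small {ρ : ℕ → ℕ} {L : List End} (h : ∀ x ∈ L, ρ x.name = x.name) :
    L.map (End.ren ρ) = L := by
  have : L.map (End.ren ρ) = L.map id := by
    apply List.map_congr_left
    intro x hx
    simp [End.ren, h x hx]
  rw [this]; simp

variable {op : Finset ℕ → End → List End} {D : List End}

theorem Rep.r3 (hop : OpLaw op) {δ : Bool} {a b c : ℕ} {p q r : Bool}
    {s1 s2 t1 t2 u1 u2 : End}
    (hp : [(s1, s2), (t1, t2), (u1, u2)].Perm (triangle δ a b c p q r))
    {A B C E0 : List End} {S : Finset ℕ} {w : List Lt}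
    (h : Rep op D (A ++ s1 :: s2 :: (B ++ t1 :: t2 :: (C ++ u1 :: u2 :: E0))) S w)
    (hE : IsGauss (A ++ s1 :: s2 :: (B ++ t1 :: t2 :: (C ++ u1 :: u2 :: E0)))) :
    ∃ S' w', Rep op D (A ++ s2 :: s1 :: (B ++ t2 :: t1 :: (C ++ u2 :: u1 :: E0))) S' w' ∧
      S'.card = S.card := by
  classical
  have hE1 := hE.perm (perm_six A B C E0 s1 s2 t1 t2 u1 u2)
  have hT : IsGauss [s1, s2, t1, t2, u1, u2] := flat_gauss hp (L := A ++ (B ++ (C ++ E0))) hE1
  have hL : IsGauss (A ++ (B ++ (C ++ E0))) := gauss_right hT hE1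
  have hdis := flat_disjoint hT hE1
  obtain ⟨N, hN⟩ : ∃ N, ∀ m ∈ crossings (dg w), m < N := by
    refine ⟨(crossings (dg w)).sup id + 1, fun m hm => ?_⟩
    have := Finset.le_sup (f := id) hm
    simp only [id] at this
    omega
  have hN' : ∀ z ∈ dg w, z.name < N := fun z hz => hN _ (crossings_mem.2 ⟨z, hz, rfl⟩)
  have hEw : ∀ z ∈ A ++ s1 :: s2 :: (B ++ t1 :: t2 :: (C ++ u1 :: u2 :: E0)), z ∈ dg w := by
    intro z hz
    rw [← h.er_eq, mem_er] at hz
    exact mem_dg hz
  have hTN : ∀ z ∈ [s1, s2, t1, t2, u1, u2], z.name < N := by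
    intro z hz
    apply hN' z (hEw z _)
    exact (perm_six A B C E0 s1 s2 t1 t2 u1 u2).mem_iff.2 (List.mem_append_left _ hz)
  have hLN : ∀ z ∈ A ++ (B ++ (C ++ E0)), z.name < N := by
    intro z hz
    apply hN' z (hEw z _)
    exact (perm_six A B C E0 s1 s2 t1 t2 u1 u2).mem_iff.2 (List.mem_append_right _ hz)
  obtain ⟨x, w1, rfl, hx, h1⟩ := er_split h.er_eq
  obtain ⟨J1, w2, rfl, hJ1, h2⟩ := er_split0 h1
  obtain ⟨y, w3, rfl, hy, h3⟩ := er_split h2
  obtain ⟨J2, w4, rfl, hJ2, h4⟩ := er_split0 h3
  obtain ⟨z, w5, rfl, hz, h5⟩ := er_split h4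
  obtain ⟨J3, v, rfl, hJ3, hv⟩ := er_split0 h5
  obtain ⟨hV1, hV0⟩ := van_V hp N
  have hs1 := hTN s1 (by simp)
  have hs2 := hTN s2 (by simp)
  have ht1 := hTN t1 (by simp)
  have ht2 := hTN t2 (by simp)
  have hu1 := hTN u1 (by simp)
  have hu2 := hTN u2 (by simp)
  have hSN : ∀ n ∈ S, n < N := fun n hn => hN n (h.sub hn)
  have hs1S : s1.name ∉ S := h.real s1 (by simp)
  have hs2S : s2.name ∉ S := h.real s2 (by simp)
  have ht1S : t1.name ∉ S := h.real t1 (by simp)
  have ht2S : t2.name ∉ S := h.real t2 (by simp)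
  have hu1S : u1.name ∉ S := h.real u1 (by simp)
  have hu2S : u2.name ∉ S := h.real u2 (by simp)
  have hprS : ∀ e : End, (pr N e).name ∉ S := fun e he => by
    have := hSN _ he
    simp only [pr] at this
    omega
  have hbrS : ∀ e : End, (br (2 * N) e).name ∉ S := fun e he => by
    have := hSN _ he
    simp only [br] at this
    omega
  -- the diagram before the move
  set M : ℕ := 2 * N with hM
  let X : List End := (dg x ++ s1 :: (dg J1 ++ [br M s1])) ++ pr N s1 :: pr N s2 ::
    ((br M s2 :: s2 :: (dg y ++ t1 :: (dg J2 ++ [br M t1]))) ++ pr N t1 :: pr N t2 ::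
      ((br M t2 :: t2 :: (dg z ++ u1 :: (dg J3 ++ [br M u1]))) ++ pr N u1 :: pr N u2 ::
        (br M u2 :: u2 :: dg v)))
  let Y : List End := (dg x ++ s1 :: (dg J1 ++ [br M s1])) ++ pr N s2 :: pr N s1 ::
    ((br M s2 :: s2 :: (dg y ++ t1 :: (dg J2 ++ [br M t1]))) ++ pr N t2 :: pr N t1 ::
      ((br M t2 :: t2 :: (dg z ++ u1 :: (dg J3 ++ [br M u1]))) ++ pr N u2 :: pr N u1 ::
        (br M u2 :: u2 :: dg v)))
  let w' : List Lt := x ++ (s1, false) :: (J1 ++ (br M s1, false) :: (pr N s2, true) ::
    (pr N s1, true) :: (br M s2, false) :: (s2, false) :: (y ++ (t1, false) :: (J2 ++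
    (br M t1, false) :: (pr N t2, true) :: (pr N t1, true) :: (br M t2, false) :: (t2, false) ::
    (z ++ (u1, false) :: (J3 ++ (br M u1, false) :: (pr N u2, true) :: (pr N u1, true) ::
    (br M u2, false) :: (u2, false) :: v)))))
  have hYw : dg w' = Y := by simp [w', Y]
  have hXY : X.Perm Y := by
    rw [List.perm_iff_count]
    intro e
    simp only [X, Y, List.count_append, List.count_cons, List.count_nil]
    ring
  have hXp : X.Perm ((dg (x ++ (s1, true) :: (J1 ++ (s2, true) :: (y ++ (t1, true) :: (J2 ++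
      (t2, true) :: (z ++ (u1, true) :: (J3 ++ (u2, true) :: v)))))) ++
      [s1, s2, t1, t2, u1, u2].map (pr N)) ++ [s1, s2, t1, t2, u1, u2].map (br M)) := by
    rw [List.perm_iff_count]
    intro e
    simp only [X, dg_append, dg_cons, List.map_cons, List.map_nil, List.count_append,
      List.count_cons, List.count_nil]
    ring
  have hX : IsGauss X := by
    refine IsGauss.perm ?_ hXp.symm
    refine IsGauss.append (IsGauss.append h.gauss (gauss_pr N hT) ?_) (gauss_br M hT) ?_
    · intro e he f hf
      rw [List.mem_map] at hf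
      obtain ⟨f, hf, rfl⟩ := hf
      have := hN' e he
      simp only [pr]
      omega
    · intro e he f hf
      rw [List.mem_map] at hf
      obtain ⟨f, hf, rfl⟩ := hf
      rw [List.mem_append] at he
      rcases he with he | he
      · have := hN' e he
        simp only [br]
        omega
      · rw [List.mem_map] at he
        obtain ⟨e, he, rfl⟩ := he
        have := hTN e he
        simp only [pr, br]
        omega
  have hY : IsGauss Y := hX.perm hXY
  have hdown : Relation.ReflTransGen Down X (dg (x ++ (s1, true) :: (J1 ++ (s2, true) :: (y ++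
      (t1, true) :: (J2 ++ (t2, true) :: (z ++ (u1, true) :: (J3 ++ (u2, true) :: v))))))) := by
    apply hV1.down
    have := Fill.hole (f := id) (dg x ++ s1 :: dg J1) _ _ _ ((fill_some id (K1 N M (s1, s2))).append
      (Fill.hole (s2 :: (dg y ++ t1 :: dg J2)) _ _ _ ((fill_some id (K1 N M (t1, t2))).append
      (Fill.hole (t2 :: (dg z ++ u1 :: dg J3)) _ _ _ ((fill_some id (K1 N M (u1, u2))).append
      (Fill.single (u2 :: dg v)))))))
    simpa [V1, K1, X] using this
  have hmove : Move X Y := by
    refine Move.r3 δ (a + N) (b + N) (c + N) p q r (pr N s1, pr N s2) (pr N t1, pr N t2)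
      (pr N u1, pr N u2) ?_ _ _ _ _
    have := hp.map (ren2 (· + N))
    rw [triangle_ren] at this
    exact this
  have hR : Rep op D (A ++ pr N s2 :: pr N s1 :: (B ++ pr N t2 :: pr N t1 ::
      (C ++ pr N u2 :: pr N u1 :: E0))) S w' := by
    refine ⟨?_, ?_, ?_, ?_, ?_, ?_⟩
    · rw [hYw]
      exact h.veq.trans ((down_star hdown hX).1.symm.trans (VEq.of hX hY hmove))
    · rw [hYw]; exact hY
    · intro n hn
      obtain ⟨e, he, rfl⟩ := crossings_mem.1 (h.sub hn)
      refine crossings_mem.2 ⟨e, ?_, rfl⟩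
      rw [hYw]
      refine (hXp.symm.trans hXY).mem_iff.1 ?_
      exact List.mem_append_left _ (List.mem_append_left _ he)
    · intro e he
      by_cases hpr : ∃ f, e = pr N f
      · obtain ⟨f, rfl⟩ := hpr
        exact hprS f
      · refine h.real e ?_
        simp only [w', List.mem_append, List.mem_cons, Prod.mk.injEq, Bool.true_eq_false,
          and_false, false_or, and_true] at he ⊢
        rcases he with he | he | rfl | rfl | he | he | rfl | rfl | he | he | rfl | rfl | he
        all_goals first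
          | exact absurd ⟨_, rfl⟩ hpr
          | simp [he]
    · simp [w', hx, hJ1, hy, hJ2, hz, hJ3, hv]
    · obtain ⟨m, hm⟩ := Fill.self (marks (op S) x)
      obtain ⟨l, hl⟩ := Fill.self (marks (op S) y)
      obtain ⟨k, hk⟩ := Fill.self (marks (op S) z)
      obtain ⟨j, hj⟩ := Fill.self (marks (op S) v)
      have h2 := Fill.hole [none] _ _ _ (hm.append (Fill.hole [some s1] _ _ _
        ((fill_junk (op S) hJ1).append (Fill.hole [some (br M s1), none, none, some (br M s2),
        some s2] _ _ _ (hl.append (Fill.hole [some t1] _ _ _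
        ((fill_junk (op S) hJ2).append (Fill.hole [some (br M t1), none, none, some (br M t2),
        some t2] _ _ _ (hk.append (Fill.hole [some u1] _ _ _
        ((fill_junk (op S) hJ3).append (Fill.hole [some (br M u1), none, none, some (br M u2),
        some u2] _ _ _ hj))))))))))))
      have h3 := h.van
      simp only [marks_append, marks_cons_true] at h3
      have h4 := h3.fill _ _ h2 (by
        have := Fill.hole (f := (some : End → Option End)) (none :: replicate m none) _ _ _
          (Fill.junk s1 _ _ _ (Fill.junk (br M s1) _ _ _ (Fill.hole [none] _ _ _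
          (Fill.hole [none] _ _ _ (Fill.junk (br M s2) _ _ _ (Fill.junk s2 _ _ _
          (Fill.hole (replicate l none) _ _ _
          (Fill.junk t1 _ _ _ (Fill.junk (br M t1) _ _ _ (Fill.hole [none] _ _ _
          (Fill.hole [none] _ _ _ (Fill.junk (br M t2) _ _ _ (Fill.junk t2 _ _ _
          (Fill.hole (replicate k none) _ _ _
          (Fill.junk u1 _ _ _ (Fill.junk (br M u1) _ _ _ (Fill.hole [none] _ _ _
          (Fill.hole [none] _ _ _ (Fill.junk (br M u2) _ _ _ (Fill.junk u2 _ _ _
          (Fill.hole (replicate j none) _ _ _ Fill.nil)))))))))))))))))))))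
        have h5 : Van _ := hV0.fill _ _ (by simpa [V0] using this) (by
          have := Van.holes (1 + m + (1 + (1 + (l + (1 + (1 + (k + (1 + (1 + j)))))))))
          rw [List.replicate_add, List.replicate_add, List.replicate_add, List.replicate_add,
            List.replicate_add, List.replicate_add, List.replicate_add, List.replicate_add,
            List.replicate_add, List.replicate_add] at this
          simpa using this)
        simpa using h5)
      simp only [w', marks_append, marks_cons_true, marks_cons_false, hop.not_mem S _ hs1S,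
        hop.not_mem S _ hs2S, hop.not_mem S _ ht1S, hop.not_mem S _ ht2S, hop.not_mem S _ hu1S,
        hop.not_mem S _ hu2S, hop.not_mem S _ (hbrS _)]
      simpa using h4
  -- renaming back
  let ρ : ℕ → ℕ := fun n => if N ≤ n then n - N else n
  have hρs : ∀ n, n < N → ρ n = n := fun n hn => by
    simp only [ρ]; rw [if_neg (by omega)]
  have hρb : ∀ e : End, (pr N e).ren ρ = e := fun e => by
    simp [pr, End.ren, ρ]
  have hA : A.map (End.ren ρ) = A := ren_small fun e he => hρs _ (hLN e (by simp [he]))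
  have hB : B.map (End.ren ρ) = B := ren_small fun e he => hρs _ (hLN e (by simp [he]))
  have hC : C.map (End.ren ρ) = C := ren_small fun e he => hρs _ (hLN e (by simp [he]))
  have hD : E0.map (End.ren ρ) = E0 := ren_small fun e he => hρs _ (hLN e (by simp [he]))
  have hperm : (A ++ pr N s2 :: pr N s1 :: (B ++ pr N t2 :: pr N t1 ::
      (C ++ pr N u2 :: pr N u1 :: E0))).Perm
      ([s1, s2, t1, t2, u1, u2].map (pr N) ++ (A ++ (B ++ (C ++ E0)))) := by
    rw [List.perm_iff_count]
    intro e
    simp only [List.map_cons, List.map_nil, List.count_append, List.count_cons, List.count_nil]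
    ring
  have hG : IsGauss (A ++ pr N s2 :: pr N s1 :: (B ++ pr N t2 :: pr N t1 ::
      (C ++ pr N u2 :: pr N u1 :: E0))) := by
    refine IsGauss.perm ?_ hperm.symm
    refine IsGauss.append (gauss_pr N hT) hL ?_
    intro e he f hf
    rw [List.mem_map] at he
    obtain ⟨e, he, rfl⟩ := he
    have := hLN f hf
    simp only [pr]
    omega
  have hinj : Set.InjOn ρ (crossings (A ++ pr N s2 :: pr N s1 :: (B ++ pr N t2 :: pr N t1 ::
      (C ++ pr N u2 :: pr N u1 :: E0)))) := by
    have hcase : ∀ n ∈ crossings (A ++ pr N s2 :: pr N s1 :: (B ++ pr N t2 :: pr N t1 ::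
        (C ++ pr N u2 :: pr N u1 :: E0))),
        (∃ e ∈ [s1, s2, t1, t2, u1, u2], n = e.name + N ∧ ρ n = e.name) ∨
        (∃ e ∈ A ++ (B ++ (C ++ E0)), n = e.name ∧ ρ n = e.name) := by
      intro n hn
      obtain ⟨e, he, rfl⟩ := crossings_mem.1 hn
      rw [hperm.mem_iff, List.mem_append, List.mem_map] at he
      rcases he with ⟨e, he, rfl⟩ | he
      · exact Or.inl ⟨e, he, rfl, congrArg End.name (hρb e)⟩
      · exact Or.inr ⟨e, he, rfl, hρs _ (hLN e he)⟩
    intro n hn m hm hnm
    rw [Finset.mem_coe] at hn hm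
    rcases hcase n hn with ⟨e, he, h1, h2⟩ | ⟨e, he, h1, h2⟩ <;>
    rcases hcase m hm with ⟨f, hf, h3, h4⟩ | ⟨f, hf, h3, h4⟩
    · omega
    · exact absurd (by omega) (hdis e he f hf)
    · exact absurd (by omega) (hdis f hf e he)
    · omega
  obtain ⟨S', w'', h1, h2, -⟩ := hR.renReal hop hG ρ hinj ∅
  refine ⟨S', w'', ?_, h2⟩
  simpa [hA, hB, hC, hD, hρb] using h1

end Pool.Agent.Q125.VK
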