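import Mathlib
import Pool.Agent.Q125.VK.Lift4

/-!
# Lifting isotopies: all moves; crossing changes and virtualizations
-/

set_option autoImplicit false

namespace Pool.Agent.Q125.VK

open List (replicate)

variable {op : Finset ℕ → End → List End} {D : List End}

theorem triangle_swap (δ : Bool) (a b c : ℕ) (p q r : Bool) :
    (triangle δ a b c p q r).map Prod.swap = triangle (!δ) a b c p q r := by
  cases δ <;> cases p <;> cases q <;> cases r <;> rfl

theorem Rep.move (hop : OpLaw op) {E E' : List End} (hm : Move E E') (hE' : IsGauss E)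
    (S : Finset ℕ) (w : List Lt) (h : Rep op D E S w) :
    ∃ S' w', Rep op D E' S' w' ∧ S'.card = S.card := by
  cases hm with
  | rotate A B =>
    obtain ⟨w', h'⟩ := h.rotate
    exact ⟨S, w', h', rfl⟩
  | rename g hg _ =>
    obtain ⟨S', w', h1, h2, -⟩ := h.renReal hop hE' g hg.injOn ∅
    exact ⟨S', w', h1, h2⟩
  | r1 x A B =>
    obtain ⟨w', h'⟩ := h.r1_remove hop
    exact ⟨S, w', h', rfl⟩
  | r2 x y x' y' hB A B C =>
    obtain ⟨w', h'⟩ := h.r2_remove hop hB
    exact ⟨S, w', h', rfl⟩
  | r3 δ a b c p q r s t u hp A B C E0 => exact Rep.r3 hop hp h hE'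

theorem Rep.move_inv (hop : OpLaw op) {E E' : List End} (hm : Move E E') (hE : IsGauss E)
    (hE' : IsGauss E') (S : Finset ℕ) (w : List Lt) (h : Rep op D E' S w) :
    ∃ S' w', Rep op D E S' w' ∧ S'.card = S.card := by
  cases hm with
  | rotate A B =>
    obtain ⟨w', h'⟩ := h.rotate
    exact ⟨S, w', h', rfl⟩
  | rename g hg _ =>
    have hinv : ∀ n, Function.invFun g (g n) = n := Function.leftInverse_invFun hg
    have hinj : Set.InjOn (Function.invFun g) (crossings (E.map (End.ren g))) := by
      have hc : ∀ n ∈ crossings (E.map (End.ren g)), ∃ m, n = g m := by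
        intro n hn
        obtain ⟨x, hx, rfl⟩ := crossings_mem.1 hn
        rw [List.mem_map] at hx
        obtain ⟨y, hy, rfl⟩ := hx
        exact ⟨y.name, rfl⟩
      intro n hn m hm hnm
      obtain ⟨n', rfl⟩ := hc n hn
      obtain ⟨m', rfl⟩ := hc m hm
      rw [hinv, hinv] at hnm
      rw [hnm]
    obtain ⟨S', w', h1, h2, -⟩ := h.renReal hop hE' (Function.invFun g) hinj ∅
    refine ⟨S', w', ?_, h2⟩
    rw [List.map_map] at h1
    have : (End.ren (Function.invFun g) ∘ End.ren g) = id := by
      funext x
      simp [End.ren, hinv]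
    rw [this, List.map_id] at h1
    exact h1
  | r1 x A B => exact h.r1_add hop hE
  | r2 x y x' y' hB A B C => exact h.r2_add hop hB hE
  | r3 δ a b c p q r s t u hp A B C E0 =>
    have := hp.map Prod.swap
    rw [triangle_swap] at this
    exact Rep.r3 hop this h hE'

theorem Rep.lift_both (hop : OpLaw op) {E E' : List End} (h : VEq E E') :
    (∀ (S : Finset ℕ) (w : List Lt), Rep op D E S w →
      ∃ S' w', Rep op D E' S' w' ∧ S'.card = S.card) ∧
    (∀ (S : Finset ℕ) (w : List Lt), Rep op D E' S w →
      ∃ S' w', Rep op D E S' w' ∧ S'.card = S.card) := by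
  induction h with
  | rel x y h =>
    exact ⟨fun S w hw => Rep.move hop h.2.2 h.1 S w hw,
      fun S w hw => Rep.move_inv hop h.2.2 h.1 h.2.1 S w hw⟩
  | refl x => exact ⟨fun S w hw => ⟨S, w, hw, rfl⟩, fun S w hw => ⟨S, w, hw, rfl⟩⟩
  | symm x y _ ih => exact ⟨ih.2, ih.1⟩
  | trans x y z _ _ ih1 ih2 =>
    refine ⟨fun S w hw => ?_, fun S w hw => ?_⟩
    · obtain ⟨S1, w1, h1, h1'⟩ := ih1.1 S w hw
      obtain ⟨S2, w2, h2, h2'⟩ := ih2.1 S1 w1 h1
      exact ⟨S2, w2, h2, h2'.trans h1'⟩
    · obtain ⟨S1, w1, h1, h1'⟩ := ih2.2 S w hw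
      obtain ⟨S2, w2, h2, h2'⟩ := ih1.2 S1 w1 h1
      exact ⟨S2, w2, h2, h2'.trans h1'⟩

/-- Every equivalence of the real diagram lifts. -/
theorem Rep.lift (hop : OpLaw op) {E E' : List End} (h : VEq E E') {S : Finset ℕ} {w : List Lt}
    (hw : Rep op D E S w) : ∃ S' w', Rep op D E' S' w' ∧ S'.card = S.card :=
  (Rep.lift_both hop h).1 S w hw

/-- Every diagram represents itself. -/
theorem Rep.init (op : Finset ℕ → End → List End) {D : List End} (hD : IsGauss D) :
    Rep op D D ∅ (D.map fun x => (x, true)) := by
  have hdg : dg (D.map fun x => (x, true)) = D := by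
    simp [dg, Function.comp_def]
  refine ⟨?_, ?_, by simp, by simp, ?_, ?_⟩
  · rw [hdg]; exact VEq.refl _
  · rw [hdg]; exact hD
  · induction D with
    | nil => rfl
    | cons x D ih => simp [er, List.filter_map, Function.comp_def]
  · have : marks (op ∅) (D.map fun x => (x, true)) = replicate D.length none := by
      clear hdg hD
      induction D with
      | nil => rfl
      | cons x D ih => rw [List.map_cons, marks_cons_true, ih]; rfl
    rw [this]
    exact Van.holes (D.length + 1)

/-- If there are no real ends then the operation gives a diagram which can be reduced to the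
diagram without crossings. -/
theorem Rep.final {S : Finset ℕ} {w : List Lt} (h : Rep op D [] S w) :
    Relation.ReflTransGen Down ((dg w).flatMap (op S)) [] := by
  have h1 : marks (op S) w = ((dg w).flatMap (op S)).map some := by
    have := h.er_eq
    clear h
    induction w with
    | nil => rfl
    | cons z w ih =>
      obtain ⟨x, b⟩ := z
      cases b with
      | true => simp at this
      | false =>
        rw [er_cons_false] at this
        rw [marks_cons_false, ih this, dg_cons, List.flatMap_cons, List.map_append]
  have h2 := h.van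
  rw [h1] at h2
  apply h2.down
  have := Fill.hole (f := id) [] _ _ _ (fill_some id ((dg w).flatMap (op S)))
  simpa using this

/-! ## Virtualization -/

/-- Virtualization as an operation on ends. -/
def vop (S : Finset ℕ) (x : End) : List End := if x.name ∈ S then [] else [x]

theorem vop_law : OpLaw vop where
  not_mem S x hx := by simp [vop, hx]
  ren g hg S x := by
    by_cases hx : x.name ∈ S
    · simp [vop, hg.eq_iff, hx]
    · simp [vop, hg.eq_iff, hx]

theorem flatMap_vop (S : Finset ℕ) (w : List End) : w.flatMap (vop S) = virtualize S w := by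
  induction w with
  | nil => rfl
  | cons x w ih =>
    rw [List.flatMap_cons, ih]
    by_cases hx : x.name ∈ S <;> simp [vop, virtualize, hx]

theorem Rep.virtualize {E : List End} {S T : Finset ℕ} {w : List Lt} (h : Rep vop D E S w)
    (hE : IsGauss E) (hT : T ⊆ crossings E) :
    ∃ S' w', Rep vop D (virtualize T E) S' w' ∧ S'.card = S.card + T.card := by
  have hdisj : Disjoint S T := by
    rw [Finset.disjoint_right]
    intro n hn
    obtain ⟨x, hx, rfl⟩ := crossings_mem.1 (hT hn)
    rw [← h.er_eq, mem_er] at hx
    exact h.real x hx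
  have hdg : dg (w.map fun z => (z.1, z.2 && decide (z.1.name ∉ T))) = dg w := by
    simp [dg, Function.comp_def]
  refine ⟨S ∪ T, w.map fun z => (z.1, z.2 && decide (z.1.name ∉ T)), ⟨?_, ?_, ?_, ?_, ?_, ?_⟩,
    Finset.card_union_of_disjoint hdisj⟩
  · rw [hdg]; exact h.veq
  · rw [hdg]; exact h.gauss
  · rw [hdg]
    refine Finset.union_subset h.sub fun n hn => ?_
    obtain ⟨x, hx, rfl⟩ := crossings_mem.1 (hT hn)
    rw [← h.er_eq, mem_er] at hx
    exact crossings_mem.2 ⟨x, mem_dg hx, rfl⟩
  · intro x hx
    rw [List.mem_map] at hx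
    obtain ⟨⟨y, b⟩, hy, hyx⟩ := hx
    simp only [Prod.mk.injEq, Bool.and_eq_true, decide_eq_true_eq] at hyx
    obtain ⟨rfl, rfl, hyT⟩ := hyx
    rw [Finset.mem_union, not_or]
    exact ⟨h.real y hy, hyT⟩
  · rw [← h.er_eq]
    simp only [er, VK.virtualize, List.filter_map, List.map_map, List.filter_filter]
    congr 1
    apply List.filter_congr
    intro z _
    simp [Bool.and_comm]
  · have hjunk : ∀ z, (z, false) ∈ w → z.name ∉ T := by
      intro z hz hzT
      have := junk_not_real h.gauss (by rw [h.er_eq]; exact hE) hz
      rw [h.er_eq] at this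
      exact this (hT hzT)
    have hfill : ∃ n, Fill some (marks (vop S) w)
        (marks (vop (S ∪ T)) (w.map fun z => (z.1, z.2 && decide (z.1.name ∉ T))))
        (replicate n none) := by
      clear hdg hE hT hdisj h
      induction w with
      | nil => exact ⟨0, Fill.nil⟩
      | cons z w ih =>
        obtain ⟨n, ih⟩ := ih fun z hz => hjunk z (by simp [hz])
        obtain ⟨x, b⟩ := z
        cases b with
        | true =>
          by_cases hx : x.name ∈ T
          · refine ⟨n, ?_⟩
            have := Fill.hole [] _ _ _ ih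
            simpa [hx, vop] using this
          · refine ⟨n + 1, ?_⟩
            have := Fill.hole [none] _ _ _ ih
            simpa [hx, vop, List.replicate_succ] using this
        | false =>
          have hx : x.name ∉ T := hjunk x (by simp)
          by_cases hxS : x.name ∈ S
          · exact ⟨n, by simpa [hx, vop, hxS] using ih⟩
          · refine ⟨n, ?_⟩
            have := Fill.junk x _ _ _ ih
            simpa [hx, vop, hxS] using this
    obtain ⟨n, hn⟩ := hfill
    exact van_holes h.van (n := n + 1) (Fill.hole [none] _ _ _ hn)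

/-! ## Crossing changes -/

/-- Crossing changes as an operation on ends. -/
def cop (S : Finset ℕ) (x : End) : List End := [if x.name ∈ S then x.switch else x]

theorem cop_law : OpLaw cop where
  not_mem S x hx := by simp [cop, hx]
  ren g hg S x := by
    by_cases hx : x.name ∈ S
    · simp [cop, hg.eq_iff, hx, End.switch_ren]
    · simp [cop, hg.eq_iff, hx]

theorem flatMap_cop (S : Finset ℕ) (w : List End) : w.flatMap (cop S) = change S w := by
  induction w with
  | nil => rfl
  | cons x w ih =>
    rw [List.flatMap_cons, ih]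
    simp [cop, change]

theorem exists_pair {E : List End} (hE : IsGauss E) {n : ℕ} (hn : n ∈ crossings E) :
    ∃ x A B C, E = A ++ x :: (B ++ x.opp :: C) ∧ x.name = n := by
  obtain ⟨x, hx, rfl⟩ := crossings_mem.1 hn
  obtain ⟨A, R, rfl⟩ := List.append_of_mem hx
  have hx' := hE.2 x hx
  have hne : x.opp ≠ x := by
    intro h
    have := congrArg End.tail h
    simp [End.opp] at this
  simp only [List.mem_append, List.mem_cons] at hx'
  rcases hx' with h | h | h
  · obtain ⟨A', R', rfl⟩ := List.append_of_mem h
    exact ⟨x.opp, A', R', R, by simp, rfl⟩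
  · exact absurd h hne
  · obtain ⟨A', R', rfl⟩ := List.append_of_mem h
    exact ⟨x, A, A', R', rfl, rfl⟩

theorem perm_pair (x y : End) (A B C : List End) :
    (A ++ x :: (B ++ y :: C)).Perm (x :: y :: (A ++ (B ++ C))) := by
  rw [List.perm_iff_count]
  intro e
  simp only [List.count_append, List.count_cons]
  ring

theorem cop_insert {n : ℕ} {S : Finset ℕ} {x : End} (h : x.name ≠ n) :
    cop (insert n S) x = cop S x := by
  simp [cop, h]

theorem marks_insert {n : ℕ} {S : Finset ℕ} {w : List Lt}
    (h : ∀ z, (z, false) ∈ w → z.name ≠ n) : marks (cop (insert n S)) w = marks (cop S) w := by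
  induction w with
  | nil => rfl
  | cons z w ih =>
    have ih := ih fun z hz => h z (by simp [hz])
    obtain ⟨x, b⟩ := z
    cases b with
    | true => rw [marks_cons_true, marks_cons_true, ih]
    | false => rw [marks_cons_false, marks_cons_false, ih, cop_insert (h x (by simp))]

theorem Rep.change_one {E : List End} {S : Finset ℕ} {w : List Lt} (h : Rep cop D E S w)
    (hE : IsGauss E) {n : ℕ} (hn : n ∈ crossings E) :
    ∃ S' w', Rep cop D (change {n} E) S' w' ∧ S'.card = S.card + 1 := by
  classical
  obtain ⟨x, A, B, C, rfl, rfl⟩ := exists_pair hE hn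
  obtain ⟨N, hN⟩ : ∃ N, ∀ m ∈ crossings (dg w), m < N := by
    refine ⟨(crossings (dg w)).sup id + 1, fun m hm => ?_⟩
    have := Finset.le_sup (f := id) hm
    simp only [id] at this
    omega
  have hN' : ∀ z ∈ dg w, z.name < N := fun z hz => hN _ (crossings_mem.2 ⟨z, hz, rfl⟩)
  have hEw : ∀ z ∈ A ++ x :: (B ++ x.opp :: C), z.name < N := by
    intro z hz
    rw [← h.er_eq, mem_er] at hz
    exact hN' _ (mem_dg hz)
  have hEp := hE.perm (perm_pair x x.opp A B C)
  have hfr := hEp.fresh
  have hjunk : ∀ z, (z, false) ∈ w → z.name ≠ x.name := by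
    intro z hz hzT
    have := junk_not_real h.gauss (by rw [h.er_eq]; exact hE) hz
    rw [h.er_eq, hzT] at this
    exact this hn
  have hw' := h.gauss
  have her := h.er_eq
  obtain ⟨u, w1, rfl, hu, h1⟩ := er_split h.er_eq
  obtain ⟨v, t, rfl, hv, ht⟩ := er_split h1
  have hxS : x.name ∉ S := h.real x (by simp)
  have hxN : x.name < N := hEw x (by simp)
  set y : End := ⟨N, !x.tail, !x.pos⟩ with hy
  set y' : End := ⟨N + 1, !x.tail, x.pos⟩ with hy'
  have hB1 : Bigon y y' y'.opp y.opp := ⟨rfl, by simp [hy, hy'], Or.inr ⟨rfl, rfl⟩⟩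
  have hB2 : Bigon y' x.switch x.opp.switch y'.opp := by
    refine ⟨rfl, by simp [hy', End.switch], Or.inr ⟨?_, rfl⟩⟩
    simp [End.switch, End.opp]
  let w' : List Lt := u ++ (y, true) :: (y', false) :: (x, false) :: (v ++ (x.opp, false) ::
    (y'.opp, false) :: (y.opp, true) :: t)
  have hX : IsGauss (dg u ++ y :: y' :: ((x :: (dg v ++ [x.opp])) ++ y'.opp :: y.opp :: dg t)) := by
    refine IsGauss.perm ?_ (perm_r2 hB1 _ _ _).symm
    refine IsGauss.add_pair (IsGauss.add_pair (by simpa using h.gauss) ?_) ?_
    · intro z hz
      have : z.name < N := hN' z (by simpa using hz)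
      simp only [hy']
      omega
    · intro z hz
      simp only [List.mem_cons] at hz
      rcases hz with rfl | rfl | hz
      · simp [hy, hy']
      · simp [hy, hy']
      · have : z.name < N := hN' z (by simpa using hz)
        simp only [hy]
        omega
  have hdw : dg w' = dg u ++ y :: y' :: ((x :: (dg v ++ [x.opp])) ++ y'.opp :: y.opp :: dg t) := by
    simp [w']
  have hNS : ∀ m, N ≤ m → m ∉ S := fun m hm hmS => by
    have := hN m (h.sub hmS)
    omega
  have hR : Rep cop D (A ++ y :: (B ++ y.opp :: C)) (insert x.name S) w' := by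
    refine ⟨?_, ?_, ?_, ?_, ?_, ?_⟩
    · rw [hdw]
      refine h.veq.trans (VEq.symm (VEq.of hX h.gauss ?_))
      have := Move.r2 y y' y'.opp y.opp hB1 (dg u) (x :: (dg v ++ [x.opp])) (dg t)
      simpa using this
    · rw [hdw]; exact hX
    · refine Finset.insert_subset ?_ fun m hm => ?_
      · exact crossings_mem.2 ⟨x, by simp [w'], rfl⟩
      · obtain ⟨e, he, rfl⟩ := crossings_mem.1 (h.sub hm)
        refine crossings_mem.2 ⟨e, ?_, rfl⟩
        simp only [w', dg_append, dg_cons, List.mem_append, List.mem_cons] at he ⊢
        tauto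
    · intro e he
      simp only [w', List.mem_append, List.mem_cons, Prod.mk.injEq, Bool.true_eq_false,
        and_false, false_or, and_true] at he
      have hold : (e, true) ∈ u ∨ (e, true) ∈ v ∨ (e, true) ∈ t → e.name ∉ insert x.name S := by
        intro he'
        rw [Finset.mem_insert, not_or]
        refine ⟨fun hex => hfr ?_, h.real e (by simp only [List.mem_append, List.mem_cons]; tauto)⟩
        refine crossings_mem.2 ⟨e, ?_, hex⟩
        simp only [List.mem_append, ← hu, ← hv, ← ht, mem_er]
        exact he'
      have hnew : N ∉ insert x.name S := by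
        rw [Finset.mem_insert, not_or]
        exact ⟨by omega, hNS N le_rfl⟩
      rcases he with he | rfl | he | rfl | he
      · exact hold (Or.inl he)
      · exact hnew
      · exact hold (Or.inr (Or.inl he))
      · exact hnew
      · exact hold (Or.inr (Or.inr he))
    · simp [w', hu, hv, ht]
    · have hju : marks (cop (insert x.name S)) u = marks (cop S) u :=
        marks_insert fun z hz => hjunk z (by simp [hz])
      have hjv : marks (cop (insert x.name S)) v = marks (cop S) v :=
        marks_insert fun z hz => hjunk z (by simp [hz])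
      have hjt : marks (cop (insert x.name S)) t = marks (cop S) t :=
        marks_insert fun z hz => hjunk z (by simp [hz])
      obtain ⟨m, hm⟩ := Fill.self (marks (cop S) u)
      obtain ⟨l, hl⟩ := Fill.self (marks (cop S) v)
      obtain ⟨k, hk⟩ := Fill.self (marks (cop S) t)
      have h2 := Fill.hole [none] _ _ _ (hm.append (Fill.hole [none, some y', some x.switch] _ _ _
        (hl.append (Fill.hole [some x.opp.switch, some y'.opp, none] _ _ _ hk))))
      have h3 := h.van
      simp only [marks_append, marks_cons_true] at h3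
      have h4 := h3.fill _ _ h2 (by
        have := Van.r2 _ _ _ _ hB2 (none :: (replicate m none ++ [none])) (replicate l none)
          (none :: replicate k none) (by
          have := Van.holes (1 + m + 1 + (l + (1 + k)))
          rw [List.replicate_add, List.replicate_add, List.replicate_add, List.replicate_add,
            List.replicate_add] at this
          simpa using this)
        simpa using this)
      have hy'S : N + 1 ≠ x.name := by omega
      have hy'S2 : N + 1 ∉ S := hNS _ (by omega)
      simp only [w', marks_append, marks_cons_true, marks_cons_false, hju, hjv, hjt]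
      have c1 : cop (insert x.name S) y' = [y'] := by simp [cop, hy', hy'S, hy'S2]
      have c2 : cop (insert x.name S) y'.opp = [y'.opp] := by simp [cop, hy', hy'S, hy'S2]
      have c3 : cop (insert x.name S) x = [x.switch] := by simp [cop]
      have c4 : cop (insert x.name S) x.opp = [x.opp.switch] := by simp [cop]
      rw [c1, c2, c3, c4]
      simpa using h4
  -- renaming
  have hABC : ∀ z ∈ A ++ (B ++ C), z.name ≠ x.name := fun z hz hzx =>
    hfr (crossings_mem.2 ⟨z, hz, hzx⟩)
  have hABCN : ∀ z ∈ A ++ (B ++ C), z.name < N := fun z hz => hEw z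
    ((perm_pair x x.opp A B C).mem_iff.2 (by simp only [List.mem_cons]; tauto))
  have hG : IsGauss (A ++ y :: (B ++ y.opp :: C)) := by
    refine IsGauss.perm ?_ (perm_pair y y.opp A B C).symm
    refine IsGauss.add_pair hEp.tail_pair ?_
    intro z hz
    have := hABCN z hz
    simp only [hy]
    omega
  let ρ : ℕ → ℕ := fun m => if m = N then x.name else m
  have hinj : Set.InjOn ρ (crossings (A ++ y :: (B ++ y.opp :: C))) := by
    have hcase : ∀ m ∈ crossings (A ++ y :: (B ++ y.opp :: C)), m = N ∨
        (m ≠ N ∧ m ≠ x.name) := by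
      intro m hm
      obtain ⟨e, he, rfl⟩ := crossings_mem.1 hm
      rw [(perm_pair y y.opp A B C).mem_iff, List.mem_cons, List.mem_cons] at he
      rcases he with rfl | rfl | he
      · exact Or.inl rfl
      · exact Or.inl rfl
      · exact Or.inr ⟨(hABCN e he).ne, hABC e he⟩
    intro m hm l hl hml
    rw [Finset.mem_coe] at hm hl
    simp only [ρ] at hml
    rcases hcase m hm with h1 | ⟨h1, h2⟩ <;> rcases hcase l hl with h3 | ⟨h3, h4⟩
    · omega
    · rw [if_pos h1, if_neg h3] at hml; omega
    · rw [if_neg h1, if_pos h3] at hml; omega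
    · rw [if_neg h1, if_neg h3] at hml; exact hml
  obtain ⟨S', w'', h1, h2, -⟩ := hR.renReal cop_law hG ρ hinj ∅
  refine ⟨S', w'', ?_, by rw [h2, Finset.card_insert_of_notMem hxS]⟩
  have hsmall : ∀ L : List End, (∀ z ∈ L, z ∈ A ++ (B ++ C)) → L.map (End.ren ρ) =
      change {x.name} L := by
    intro L hL
    rw [ren_small fun z hz => by simp only [ρ]; rw [if_neg (hABCN z (hL z hz)).ne]]
    unfold change
    have : L.map (fun z => if z.name ∈ ({x.name} : Finset ℕ) then z.switch else z) =
        L.map id := by
      apply List.map_congr_left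
      intro z hz
      simp [hABC z (hL z hz)]
    rw [this]; simp
  have e1 : (A ++ y :: (B ++ y.opp :: C)).map (End.ren ρ) =
      change {x.name} (A ++ x :: (B ++ x.opp :: C)) := by
    have g1 : ∀ L L' : List End, change {x.name} (L ++ L') =
      change {x.name} L ++ change {x.name} L' := fun L L' => by simp [change]
    have g2 : ∀ (z : End) (L : List End), z.name = x.name → change {x.name} (z :: L) =
      z.switch :: change {x.name} L := fun z L hz => by simp [change, hz]
    rw [g1, g2 x _ rfl, g1, g2 x.opp _ rfl, List.map_append, List.map_cons, List.map_append,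
      List.map_cons, hsmall A fun z hz => by simp [hz], hsmall B fun z hz => by simp [hz],
      hsmall C fun z hz => by simp [hz]]
    simp [End.ren, ρ, hy, End.switch, End.opp]
  rw [e1] at h1
  exact h1

theorem change_insert {n : ℕ} {T : Finset ℕ} (hn : n ∉ T) (E : List End) :
    change (insert n T) E = change {n} (change T E) := by
  unfold change
  rw [List.map_map]
  apply List.map_congr_left
  intro x _
  by_cases h1 : x.name = n
  · simp [h1, hn]
  · by_cases h2 : x.name ∈ T
    · simp [h1, h2, End.switch]
    · simp [h1, h2]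

theorem crossings_change (T : Finset ℕ) (E : List End) : crossings (change T E) = crossings E := by
  ext n
  rw [crossings_mem, crossings_mem]
  unfold change
  constructor
  · rintro ⟨x, hx, rfl⟩
    rw [List.mem_map] at hx
    obtain ⟨y, hy, rfl⟩ := hx
    exact ⟨y, hy, by split_ifs <;> rfl⟩
  · rintro ⟨x, hx, rfl⟩
    exact ⟨_, List.mem_map_of_mem hx, by split_ifs <;> rfl⟩

theorem Rep.change {E : List End} (hE : IsGauss E) (T : Finset ℕ) :
    ∀ (S : Finset ℕ) (w : List Lt), Rep cop D E S w → T ⊆ crossings E →
    ∃ S' w', Rep cop D (change T E) S' w' ∧ S'.card = S.card + T.card := by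
  induction T using Finset.induction_on with
  | empty =>
    intro S w h _
    refine ⟨S, w, ?_, by simp⟩
    have : VK.change ∅ E = E := by simp [VK.change]
    rw [this]; exact h
  | insert n T hn ih =>
    intro S w h hT
    obtain ⟨S1, w1, h1, h2⟩ := ih S w h ((Finset.subset_insert n T).trans hT)
    have hn' : n ∈ crossings (VK.change T E) := by
      rw [crossings_change]; exact hT (Finset.mem_insert_self n T)
    obtain ⟨S2, w2, h3, h4⟩ := h1.change_one (isGauss_change T hE) hn'
    refine ⟨S2, w2, ?_, ?_⟩
    · rw [change_insert hn]; exact h3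
    · rw [h4, h2, Finset.card_insert_of_notMem hn]; ring

end Pool.Agent.Q125.VK
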