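import Mathlib
import Pool.Agent.Q125.VK.Lift5

/-!
# Making all crossing changes, or all virtualizations, at once
-/

set_option autoImplicit false

namespace Pool.Agent.Q125.VK

theorem Rep.of_knot_eq {op : Finset ℕ → End → List End} (hop : OpLaw op) {D : List End}
    {E E' : Diagram} (h : knot E = knot E') {S : Finset ℕ} {w : List Lt}
    (hw : Rep op D E.1 S w) : ∃ S' w', Rep op D E'.1 S' w' ∧ S'.card = S.card :=
  Rep.lift hop ((knot_eq_iff _ _).1 h) hw

theorem Rep.final_change {D : Diagram} {S : Finset ℕ} {w : List Lt} (h : Rep cop D.1 [] S w) :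
    ∃ D' : Diagram, knot D' = knot D ∧ S ⊆ crossings D'.1 ∧ knot (D'.change S) = unknot := by
  refine ⟨⟨dg w, h.gauss⟩, (knot_eq_iff _ _).2 h.veq.symm, h.sub, (knot_eq_iff _ _).2 ?_⟩
  have h1 := h.final
  rw [flatMap_cop] at h1
  exact (down_star h1 (isGauss_change S h.gauss)).1

theorem Rep.final_virtualize {D : Diagram} {S : Finset ℕ} {w : List Lt}
    (h : Rep vop D.1 [] S w) :
    ∃ D' : Diagram, knot D' = knot D ∧ S ⊆ crossings D'.1 ∧ knot (D'.virtualize S) = unknot := by
  refine ⟨⟨dg w, h.gauss⟩, (knot_eq_iff _ _).2 h.veq.symm, h.sub, (knot_eq_iff _ _).2 ?_⟩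
  have h1 := h.final
  rw [flatMap_vop] at h1
  exact (down_star h1 (isGauss_virtualize S h.gauss)).1

end Pool.Agent.Q125.VK
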